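import Mathlib

/-!
# Two counting lemmas
-/

set_option autoImplicit false

namespace Pool.Agent.H23.PRam

open Finset

theorem sum_pow_le (n m : ℕ) : ∑ i ∈ range m, n ^ i ≤ (n + 1) ^ m := by
  rw [add_pow]
  calc ∑ i ∈ range m, n ^ i ≤ ∑ i ∈ range m, n ^ i * 1 ^ (m - i) * (m.choose i) := by
        refine Finset.sum_le_sum (fun i hi => ?_)
        rw [mem_range] at hi
        rw [one_pow, mul_one]
        exact Nat.le_mul_of_pos_right _ (Nat.choose_pos hi.le)
    _ ≤ ∑ i ∈ range (m + 1), n ^ i * 1 ^ (m - i) * (m.choose i) :=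
        Finset.sum_le_sum_of_subset (range_subset_range.2 (Nat.le_succ m))

variable {α : Type*} [DecidableEq α]

/-- Sauer–Shelah–Pajor, in the form used here. -/
theorem card_le_of_not_shatters (𝒜 : Finset (Finset α)) (V : Finset α) (hV : ∀ s ∈ 𝒜, s ⊆ V) (m : ℕ)
    (h : ∀ X ⊆ V, X.card = m → ¬ 𝒜.Shatters X) : 𝒜.card ≤ (V.card + 1) ^ m := by
  refine (card_le_card_shatterer 𝒜).trans ?_
  have hsub : 𝒜.shatterer ⊆ (range m).biUnion (fun i => powersetCard i V) := by
    intro s hs
    rw [mem_shatterer] at hs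
    have hsV : s ⊆ V := by
      obtain ⟨t, ht, hst⟩ := hs.exists_superset
      exact hst.trans (hV t ht)
    rw [mem_biUnion]
    refine ⟨s.card, ?_, mem_powersetCard.2 ⟨hsV, rfl⟩⟩
    rw [mem_range]
    by_contra hcon
    rw [not_lt] at hcon
    obtain ⟨X, hX, hXc⟩ := Finset.exists_subset_card_eq hcon
    exact h X (hX.trans hsV) hXc (hs.mono_right hX)
  refine (card_le_card hsub).trans (card_biUnion_le.trans ?_)
  refine le_trans (Finset.sum_le_sum (fun i _ => ?_)) (sum_pow_le V.card m)
  rw [card_powersetCard]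
  exact Nat.choose_le_pow _ _

/-- the position of `x` in `S` -/
noncomputable def idx {β : Type*} (S : Finset β) (x : β) : ℕ := by
  classical exact if h : x ∈ S then (S.equivFin ⟨x, h⟩ : ℕ) else 0

theorem idx_lt {β : Type*} {S : Finset β} {x : β} (h : x ∈ S) : idx S x < S.card := by
  unfold idx
  rw [dif_pos h]
  exact (S.equivFin ⟨x, h⟩).2

theorem idx_inj {β : Type*} {S : Finset β} {x y : β} (hx : x ∈ S) (hy : y ∈ S)
    (h : idx S x = idx S y) : x = y := by
  unfold idx at h
  rw [dif_pos hx, dif_pos hy] at h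
  have := S.equivFin.injective (Fin.ext h)
  exact congrArg Subtype.val this

/-- Sequences whose next entry is always in a set of size at most `b` determined by the last one. -/
theorem card_seq_le {β : Type*} [DecidableEq β] {r : ℕ} (C : Finset (Fin (r + 1) → β)) (A : Finset β)
    (Opt : Fin r → β → Finset β) (b : ℕ) (h0 : ∀ M ∈ C, M 0 ∈ A)
    (hO : ∀ M ∈ C, ∀ j : Fin r, M j.succ ∈ Opt j (M j.castSucc))
    (hb : ∀ M ∈ C, ∀ j : Fin r, (Opt j (M j.castSucc)).card ≤ b) :
    C.card ≤ A.card * b ^ r := by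
  classical
  have hcard : (A ×ˢ Fintype.piFinset (fun _ : Fin r => range b)).card = A.card * b ^ r := by
    rw [card_product, Fintype.card_piFinset]
    simp
  rw [← hcard]
  refine Finset.card_le_card_of_injOn
    (fun M => (M 0, fun j => idx (Opt j (M j.castSucc)) (M j.succ))) ?_ ?_
  · intro M hM
    rw [mem_coe, mem_product, Fintype.mem_piFinset]
    exact ⟨h0 M hM, fun j => mem_range.2 ((idx_lt (hO M hM j)).trans_le (hb M hM j))⟩
  · intro M hM M' hM' hMM
    simp only [Prod.mk.injEq] at hMM
    funext i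
    induction i using Fin.induction with
    | zero => exact hMM.1
    | succ j ih =>
      have h1 := congrFun hMM.2 j
      simp only [← ih] at h1
      have h2 := hO M' hM' j
      rw [← ih] at h2
      exact idx_inj (hO M hM j) h2 h1

end Pool.Agent.H23.PRam
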