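import Pool.Agent.H23.PRam.Elim
import Pool.Agent.H23.PRam.Sauer

/-!
# Elimination with two-sided activity

`F` is a family on the remaining coordinates `V` with a full lift `L` to the original family `F0`.
A coordinate `x` entering a chain `M` of `F` between `M j` and `M (j + 1)` is *active* if
* some member `E` of `F0` of level `≤ j` contains `x` and is contained in the lift of every member
  (of level `≥ j`) which contains `M j` and `x`;
* some member `E'` of `F0` of level `≥ j + 1` misses `x` and contains the lift of every member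
  (of level `≤ j + 1`) which is contained in `M (j + 1)` and misses `x`.
Coordinates which are not active for a chain can be eliminated at the cost of a factor `2`.
-/

set_option autoImplicit false

namespace Pool.Agent.H23.PRam

open Finset

variable {α : Type*} [DecidableEq α] {r : ℕ}

structure IsFull (F0 F : Fin (r + 1) → Finset (Finset α)) (V : Finset α)
    (L : Fin (r + 1) → Finset α → Finset α) : Prop where
  sub : ∀ i, ∀ u ∈ F i, u ⊆ V
  mem : ∀ i, ∀ u ∈ F i, L i u ∈ F0 i
  tr : ∀ i, ∀ u ∈ F i, L i u ∩ V = u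
  mono : ∀ i j u v, i ≤ j → u ∈ F i → v ∈ F j → u ⊆ v → L i u ⊆ L j v

def PAct (F0 F : Fin (r + 1) → Finset (Finset α)) (L : Fin (r + 1) → Finset α → Finset α)
    (i : Fin (r + 1)) (u : Finset α) (x : α) : Prop :=
  ∃ i' ≤ i, ∃ E ∈ F0 i', x ∈ E ∧ ∀ j ≥ i, ∀ v ∈ F j, u ⊆ v → x ∈ v → E ⊆ L j v

def QAct (F0 F : Fin (r + 1) → Finset (Finset α)) (L : Fin (r + 1) → Finset α → Finset α)
    (i : Fin (r + 1)) (u : Finset α) (x : α) : Prop :=
  ∃ i' ≥ i, ∃ E ∈ F0 i', x ∉ E ∧ ∀ j ≤ i, ∀ v ∈ F j, v ⊆ u → x ∉ v → L j v ⊆ E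

/-- every coordinate of `K` is active for the chain `M` -/
def Good (F0 F : Fin (r + 1) → Finset (Finset α)) (L : Fin (r + 1) → Finset α → Finset α)
    (K : Finset α) (M : Fin (r + 1) → Finset α) : Prop :=
  ∀ j : Fin r, ∀ x ∈ K, x ∉ M j.castSucc → x ∈ M j.succ →
    PAct F0 F L j.castSucc (M j.castSucc) x ∧ QAct F0 F L j.succ (M j.succ) x

open Classical in
/-- the chains all of whose coordinates in `K` are active -/
noncomputable def GChains (F0 F : Fin (r + 1) → Finset (Finset α))
    (L : Fin (r + 1) → Finset α → Finset α) (K : Finset α) : Finset (Fin (r + 1) → Finset α) :=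
  (Chains F).filter (Good F0 F L K)

theorem mem_GChains {F0 F : Fin (r + 1) → Finset (Finset α)}
    {L : Fin (r + 1) → Finset α → Finset α} {K : Finset α} {M : Fin (r + 1) → Finset α} :
    M ∈ GChains F0 F L K ↔ ((∀ i, M i ∈ F i) ∧ Monotone M) ∧ Good F0 F L K M := by
  classical
  rw [GChains, mem_filter, mem_Chains]

variable {F0 F : Fin (r + 1) → Finset (Finset α)} {L : Fin (r + 1) → Finset α → Finset α}
  {V K : Finset α} {x : α}

theorem isFull_refl (h : ∀ i, ∀ u ∈ F0 i, u ⊆ V) : IsFull F0 F0 V (fun _ u => u) :=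
  ⟨h, fun _ _ hu => hu, fun i u hu => Finset.inter_eq_left.2 (h i u hu), fun _ _ _ _ _ _ _ h => h⟩

theorem IsFull.lift {F' : Fin (r + 1) → Finset (Finset α)} {l : Fin (r + 1) → Finset α → Finset α}
    (h : IsFull F0 F V L) (hl : IsLift F F' x l) :
    IsFull F0 F' (V.erase x) (fun i u => L i (l i u)) where
  sub := by
    intro i u hu
    rw [← hl.erase i u hu]
    exact Finset.erase_subset_erase x (h.sub i _ (hl.mem i u hu))
  mem := fun i u hu => h.mem i _ (hl.mem i u hu)
  tr := by
    intro i u hu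
    have h1 := h.tr i _ (hl.mem i u hu)
    have h2 : L i (l i u) ∩ V.erase x = (L i (l i u) ∩ V).erase x := by
      ext z; simp only [mem_inter, mem_erase]; tauto
    show L i (l i u) ∩ V.erase x = u
    rw [h2, h1]
    exact hl.erase i u hu
  mono := fun i j u v hij hu hv huv =>
    h.mono i j _ _ hij (hl.mem i u hu) (hl.mem j v hv) (hl.mono i j u v hij hu hv huv)

theorem PAct.lift {F' : Fin (r + 1) → Finset (Finset α)} {l : Fin (r + 1) → Finset α → Finset α}
    (hl : IsLift F F' x l) {i : Fin (r + 1)} {u : Finset α} {y : α} (hy : y ≠ x) (hu : u ∈ F' i)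
    (h : PAct F0 F L i (l i u) y) : PAct F0 F' (fun i u => L i (l i u)) i u y := by
  obtain ⟨i', hi', E, hE, hyE, hj⟩ := h
  refine ⟨i', hi', E, hE, hyE, fun j hij v hv huv hyv => ?_⟩
  refine hj j hij _ (hl.mem j v hv) (hl.mono i j u v hij hu hv huv) ?_
  have := hl.erase j v hv
  rw [← this] at hyv
  exact Finset.mem_of_mem_erase hyv

theorem QAct.lift {F' : Fin (r + 1) → Finset (Finset α)} {l : Fin (r + 1) → Finset α → Finset α}
    (hl : IsLift F F' x l) {i : Fin (r + 1)} {u : Finset α} {y : α} (hy : y ≠ x) (hu : u ∈ F' i)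
    (h : QAct F0 F L i (l i u) y) : QAct F0 F' (fun i u => L i (l i u)) i u y := by
  obtain ⟨i', hi', E, hE, hyE, hj⟩ := h
  refine ⟨i', hi', E, hE, hyE, fun j hij v hv huv hyv => ?_⟩
  refine hj j hij _ (hl.mem j v hv) (hl.mono j i v u hij hv hu huv) ?_
  have := hl.erase j v hv
  intro hyl
  apply hyv
  rw [← this]
  exact Finset.mem_erase.2 ⟨hy, hyl⟩

/-- a chain of `F` that is the lift of a chain of `F'` -/
theorem GChains.lift {F' : Fin (r + 1) → Finset (Finset α)} {l : Fin (r + 1) → Finset α → Finset α}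
    (hl : IsLift F F' x l) (hx : x ∉ K) {M : Fin (r + 1) → Finset α}
    (hM : M ∈ GChains F0 F L K) (hM' : ∀ i, (M i).erase x ∈ F' i)
    (hlM : ∀ i, l i ((M i).erase x) = M i) :
    (fun i => (M i).erase x) ∈ GChains F0 F' (fun i u => L i (l i u)) K := by
  rw [mem_GChains] at hM ⊢
  refine ⟨⟨hM', fun i i' h => Finset.erase_subset_erase x (hM.1.2 h)⟩, ?_⟩
  intro j y hy hy0 hy1
  have hyx : y ≠ x := fun h => hx (h ▸ hy)
  have h0 : y ∉ M j.castSucc := fun h => hy0 (Finset.mem_erase.2 ⟨hyx, h⟩)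
  have h1 : y ∈ M j.succ := Finset.mem_of_mem_erase hy1
  obtain ⟨hP, hQ⟩ := hM.2 j y hy h0 h1
  refine ⟨PAct.lift hl hyx (hM' _) ?_, QAct.lift hl hyx (hM' _) ?_⟩
  · rw [hlM]; exact hP
  · rw [hlM]; exact hQ

theorem l1_mem (M : Finset α) (i : Fin (r + 1)) (hM : M ∈ F i) (hP : x ∉ M → ¬ Pst F x i M) :
    M.erase x ∈ W1 F x i ∧ l1 F x i (M.erase x) = M := by
  classical
  by_cases hx : x ∈ M
  · have h1 : M.erase x ∈ G1 F x i := mem_G1.2 ⟨by rw [Finset.insert_erase hx]; exact hM,
      Finset.notMem_erase x _⟩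
    refine ⟨?_, ?_⟩
    · rw [W1, mem_union]; exact Or.inl h1
    · rw [l1, if_pos h1, Finset.insert_erase hx]
  · rw [Finset.erase_eq_of_notMem hx]
    refine ⟨?_, ?_⟩
    · rw [W1, mem_union, mem_filter]
      exact Or.inr ⟨mem_G0.2 ⟨hM, hx⟩, hP hx⟩
    · have : M ∉ G1 F x i := fun h => hP hx ⟨i, le_rfl, _, h, subset_rfl⟩
      rw [l1, if_neg this]

theorem l0_mem (M : Finset α) (i : Fin (r + 1)) (hM : M ∈ F i)
    (hQ : x ∈ M → ¬ Qst F x i (M.erase x)) :
    M.erase x ∈ W0 F x i ∧ l0 F x i (M.erase x) = M := by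
  classical
  by_cases hx : x ∈ M
  · have h1 : M.erase x ∈ G1 F x i := mem_G1.2 ⟨by rw [Finset.insert_erase hx]; exact hM,
      Finset.notMem_erase x _⟩
    have h2 : M.erase x ∉ G0 F x i := fun h => hQ hx ⟨i, le_rfl, _, h, subset_rfl⟩
    refine ⟨?_, ?_⟩
    · rw [W0, mem_union, mem_filter]; exact Or.inr ⟨h1, hQ hx⟩
    · rw [l0, if_neg h2, Finset.insert_erase hx]
  · rw [Finset.erase_eq_of_notMem hx]
    have h0 : M ∈ G0 F x i := mem_G0.2 ⟨hM, hx⟩
    refine ⟨?_, ?_⟩
    · rw [W0, mem_union]; exact Or.inl h0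
    · rw [l0, if_pos h0]

/-- One step of the elimination: `x` is eliminated with `W1`, or with `W0`, or is active. -/
theorem gchains_cover (h : IsFull F0 F V L) (hxV : x ∈ V) (hx : x ∉ K) :
    GChains F0 F L K ⊆
      ((GChains F0 (W1 F x) (fun i u => L i (l1 F x i u)) K).image (fun M i => l1 F x i (M i))) ∪
      ((GChains F0 (W0 F x) (fun i u => L i (l0 F x i u)) K).image (fun M i => l0 F x i (M i))) ∪
      GChains F0 F L (insert x K) := by
  classical
  intro M hM
  have hM0 := hM
  rw [mem_GChains] at hM0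
  obtain ⟨⟨hMF, hMm⟩, hMg⟩ := hM0
  by_cases h1 : ∀ i, x ∉ M i → ¬ Pst F x i (M i)
  · refine mem_union_left _ (mem_union_left _ (mem_image.2 ⟨fun i => (M i).erase x, ?_, ?_⟩))
    · exact GChains.lift isLift_W1 hx hM (fun i => (l1_mem (M i) i (hMF i) (h1 i)).1)
        (fun i => (l1_mem (M i) i (hMF i) (h1 i)).2)
    · funext i
      exact (l1_mem (M i) i (hMF i) (h1 i)).2
  by_cases h2 : ∀ i, x ∈ M i → ¬ Qst F x i ((M i).erase x)
  · refine mem_union_left _ (mem_union_right _ (mem_image.2 ⟨fun i => (M i).erase x, ?_, ?_⟩))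
    · exact GChains.lift isLift_W0 hx hM (fun i => (l0_mem (M i) i (hMF i) (h2 i)).1)
        (fun i => (l0_mem (M i) i (hMF i) (h2 i)).2)
    · funext i
      exact (l0_mem (M i) i (hMF i) (h2 i)).2
  refine mem_union_right _ ?_
  rw [mem_GChains]
  refine ⟨⟨hMF, hMm⟩, ?_⟩
  intro j y hy hy0 hy1
  rw [mem_insert] at hy
  rcases hy with rfl | hy
  swap
  · exact hMg j y hy hy0 hy1
  push Not at h1 h2
  obtain ⟨i1, hi1, i1', hi1', q, hq, hqM⟩ := h1
  obtain ⟨i2, hi2, i2', hi2', p, hp, hMp⟩ := h2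
  have hij1 : i1 ≤ j.castSucc := by
    by_contra hcon
    rw [not_le, Fin.castSucc_lt_iff_succ_le] at hcon
    exact hi1 (hMm hcon hy1)
  have hij2 : j.succ ≤ i2 := by
    by_contra hcon
    rw [not_le, ← Fin.le_castSucc_iff] at hcon
    exact hy0 (hMm hcon hi2)
  rw [mem_G1] at hq
  rw [mem_G0] at hp
  constructor
  · refine ⟨i1', hi1'.trans hij1, L i1' (insert y q), h.mem _ _ hq.1, ?_, ?_⟩
    · have := h.tr _ _ hq.1
      have hy2 : y ∈ L i1' (insert y q) ∩ V := by rw [this]; exact mem_insert_self y q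
      exact (mem_inter.1 hy2).1
    · intro j' hj' v hv huv hyv
      refine h.mono _ _ _ _ ((hi1'.trans hij1).trans hj') hq.1 hv ?_
      exact Finset.insert_subset hyv ((hqM.trans (hMm hij1)).trans huv)
  · refine ⟨i2', hij2.trans hi2', L i2' p, h.mem _ _ hp.1, ?_, ?_⟩
    · intro hyL
      have := h.tr _ _ hp.1
      have hy2 : y ∈ L i2' p ∩ V := mem_inter.2 ⟨hyL, hxV⟩
      rw [this] at hy2
      exact hp.2 hy2
    · intro j' hj' v hv hvu hyv
      refine h.mono _ _ _ _ (hj'.trans (hij2.trans hi2')) hv hp.1 ?_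
      intro z hz
      apply hMp
      rw [mem_erase]
      refine ⟨fun hzy => hyv (hzy ▸ hz), hMm hij2 (hvu hz)⟩

/-- **The elimination theorem.** -/
theorem card_gchains_le (F0 : Fin (r + 1) → Finset (Finset α)) (V0 : Finset α) (c T : ℕ)
    (hbase : ∀ (K : Finset α) (F : Fin (r + 1) → Finset (Finset α))
      (L : Fin (r + 1) → Finset α → Finset α), K ⊆ V0 → IsFull F0 F K L →
        (GChains F0 F L K).card ≤ c ^ K.card * T) :
    ∀ (R K : Finset α), Disjoint R K → R ⊆ V0 → K ⊆ V0 →
      ∀ (F : Fin (r + 1) → Finset (Finset α))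
      (L : Fin (r + 1) → Finset α → Finset α), IsFull F0 F (R ∪ K) L →
        (GChains F0 F L K).card ≤ (c + 2) ^ R.card * c ^ K.card * T := by
  classical
  intro R
  induction R using Finset.induction_on with
  | empty =>
    intro K _ _ hKV F L h
    rw [Finset.empty_union] at h
    simpa using hbase K F L hKV h
  | insert x R hx ih =>
    intro K hK hRV hKV F L h
    rw [Finset.insert_subset_iff] at hRV
    rw [Finset.disjoint_insert_left] at hK
    have hxV : x ∈ insert x R ∪ K := mem_union_left _ (mem_insert_self x R)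
    have hV : (insert x R ∪ K).erase x = R ∪ K := by
      rw [Finset.insert_union]
      rw [Finset.erase_insert]
      rw [mem_union]
      rintro (h | h)
      · exact hx h
      · exact hK.1 h
    have e1 := ih K hK.2 hRV.2 hKV (W1 F x) _ (by
      have := h.lift (isLift_W1 (G := F) (x := x))
      rw [hV] at this
      exact this)
    have e0 := ih K hK.2 hRV.2 hKV (W0 F x) _ (by
      have := h.lift (isLift_W0 (G := F) (x := x))
      rw [hV] at this
      exact this)
    have e2 := ih (insert x K) (by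
      rw [Finset.disjoint_insert_right]
      exact ⟨hx, hK.2⟩) hRV.2 (Finset.insert_subset hRV.1 hKV) F L (by
        have : R ∪ insert x K = insert x R ∪ K := by
          ext z; simp only [mem_union, mem_insert]; tauto
        rw [this]
        exact h)
    refine (card_le_card (gchains_cover h hxV hK.1)).trans ?_
    refine (card_union_le _ _).trans ?_
    refine (Nat.add_le_add ((card_union_le _ _).trans (Nat.add_le_add card_image_le card_image_le))
      le_rfl).trans ?_
    refine (Nat.add_le_add (Nat.add_le_add e1 e0) e2).trans ?_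
    rw [Finset.card_insert_of_notMem hx, Finset.card_insert_of_notMem hK.1]
    apply le_of_eq
    ring

theorem card_chains_le_of_base (F0 : Fin (r + 1) → Finset (Finset α)) (V : Finset α)
    (hV : ∀ i, ∀ u ∈ F0 i, u ⊆ V) (c T : ℕ)
    (hbase : ∀ (K : Finset α) (F : Fin (r + 1) → Finset (Finset α))
      (L : Fin (r + 1) → Finset α → Finset α), K ⊆ V → IsFull F0 F K L →
        (GChains F0 F L K).card ≤ c ^ K.card * T) :
    (Chains F0).card ≤ (c + 2) ^ V.card * T := by
  classical
  have h := card_gchains_le F0 V c T hbase V ∅ (Finset.disjoint_empty_right V) subset_rfl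
    (Finset.empty_subset V) F0 (fun _ u => u) (by
      rw [Finset.union_empty]
      exact isFull_refl hV)
  have h2 : Chains F0 ⊆ GChains F0 F0 (fun _ u => u) ∅ := by
    intro M hM
    rw [mem_GChains]
    exact ⟨mem_Chains.1 hM, fun j y hy => absurd hy (Finset.notMem_empty y)⟩
  refine (card_le_card h2).trans (h.trans ?_)
  simp

end Pool.Agent.H23.PRam
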