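import Pool.Agent.H23.PRam.Count

/-!
# Asymptotics
-/

set_option autoImplicit false

namespace Pool.Agent.H23.PRam

open Finset Filter

/-- `x^{1/2} log (4 x)` is eventually below `x / M`. -/
theorem eventually_sqrt_log (M : ℝ) (hM : 0 < M) :
    ∀ᶠ n : ℕ in atTop, M * (Real.sqrt n * Real.log (4 * n)) ≤ n := by
  have h1 : Tendsto (fun n : ℕ => (n : ℝ)) atTop atTop := tendsto_natCast_atTop_atTop
  have h2 : (fun x : ℝ => Real.log x) =o[atTop] fun x : ℝ => x ^ (1 / 2 : ℝ) :=
    isLittleO_log_rpow_atTop (by norm_num)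
  have h3 : Tendsto (fun n : ℕ => 4 * (n : ℝ)) atTop atTop :=
    Tendsto.const_mul_atTop (by norm_num) h1
  have h4 := (h2.comp_tendsto h3).def (show (0 : ℝ) < 1 / (2 * M) by positivity)
  filter_upwards [h4, eventually_ge_atTop 1] with n hn hn1
  have hn0 : (1 : ℝ) ≤ n := by exact_mod_cast hn1
  simp only [Function.comp] at hn
  have hlog : 0 ≤ Real.log (4 * n) := Real.log_nonneg (by linarith)
  rw [Real.norm_of_nonneg hlog, Real.norm_of_nonneg (by positivity), ← Real.sqrt_eq_rpow] at hn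
  have hs4 : Real.sqrt (4 * n) = 2 * Real.sqrt n := by
    rw [Real.sqrt_mul (by norm_num), show (4 : ℝ) = 2 ^ 2 by norm_num,
      Real.sqrt_sq (by norm_num)]
  rw [hs4] at hn
  have hs : 0 ≤ Real.sqrt n := Real.sqrt_nonneg _
  calc M * (Real.sqrt n * Real.log (4 * n))
      ≤ M * (Real.sqrt n * (1 / (2 * M) * (2 * Real.sqrt n))) := by gcongr
    _ = Real.sqrt n * Real.sqrt n := by field_simp
    _ = n := Real.mul_self_sqrt (by linarith)

/-- The numerical inequality behind the final contradiction. -/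
theorem numeric (m : ℕ) : ∀ᶠ n : ℕ in atTop, ∀ k : ℕ, k = ⌊12 * (n : ℝ) / Real.log n⌋₊ →
    8 ^ (n + k) * (n + k + 1) ^ (m * (Nat.sqrt n)) < (Nat.sqrt n + 2) ^ k := by
  have hlogt : Tendsto (fun n : ℕ => Real.log n) atTop atTop :=
    Real.tendsto_log_atTop.comp tendsto_natCast_atTop_atTop
  have hlo : ∀ᶠ n : ℕ in atTop, (4:ℝ) * Real.log n ≤ n := by
    have h2 : (fun x : ℝ => Real.log x) =o[atTop] fun x : ℝ => x := Real.isLittleO_log_id_atTop
    have h4 := (h2.comp_tendsto tendsto_natCast_atTop_atTop).def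
      (show (0 : ℝ) < 1 / 4 by norm_num)
    filter_upwards [h4, eventually_ge_atTop 1] with n hn hn1
    simp only [Function.comp] at hn
    have hn0 : (1 : ℝ) ≤ n := by exact_mod_cast hn1
    rw [Real.norm_of_nonneg (Real.log_nonneg hn0), Real.norm_of_nonneg (by linarith)] at hn
    linarith
  filter_upwards [hlogt.eventually_ge_atTop 12, eventually_sqrt_log (2 * m + 1) (by positivity),
    eventually_ge_atTop 4, hlo] with n h12 hsq hn4 hlo k hk
  have hn0 : (4 : ℝ) ≤ n := by exact_mod_cast hn4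
  have hlogpos : 0 < Real.log n := by linarith
  have hkle : (k : ℝ) ≤ 12 * n / Real.log n := by
    rw [hk]; exact Nat.floor_le (by positivity)
  have hkge : 12 * n / Real.log n - 1 < (k : ℝ) := by
    rw [hk]; exact Nat.sub_one_lt_floor _
  have hkn : (k : ℝ) ≤ n := by
    refine hkle.trans ?_
    rw [div_le_iff₀ hlogpos]
    nlinarith
  have hkn' : k ≤ n := by exact_mod_cast hkn
  -- take logarithms
  have hr : Real.sqrt n ≤ (Nat.sqrt n : ℝ) + 2 := by
    have h1 : n < (Nat.sqrt n + 1) * (Nat.sqrt n + 1) := Nat.lt_succ_sqrt n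
    have h2 : (n : ℝ) ≤ ((Nat.sqrt n : ℝ) + 1) ^ 2 := by
      have : (n : ℝ) < ((Nat.sqrt n + 1) * (Nat.sqrt n + 1) : ℕ) := by exact_mod_cast h1
      push_cast at this
      nlinarith
    calc Real.sqrt n ≤ Real.sqrt (((Nat.sqrt n : ℝ) + 1) ^ 2) := Real.sqrt_le_sqrt h2
      _ = (Nat.sqrt n : ℝ) + 1 := Real.sqrt_sq (by positivity)
      _ ≤ _ := by linarith
  have hr2 : (Nat.sqrt n : ℝ) ≤ Real.sqrt n := Real.nat_sqrt_le_real_sqrt
  have hsqpos : 0 < Real.sqrt n := Real.sqrt_pos.2 (by linarith)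
  have hlogr : Real.log n / 2 ≤ Real.log ((Nat.sqrt n : ℝ) + 2) := by
    rw [← Real.log_sqrt (by linarith)]
    exact Real.log_le_log hsqpos hr
  have hlog8 : Real.log 8 ≤ 2.1 := by
    have : Real.log 8 = 3 * Real.log 2 := by
      rw [show (8 : ℝ) = 2 ^ (3 : ℕ) by norm_num, Real.log_pow]; norm_num
    rw [this]
    have := Real.log_two_lt_d9
    linarith
  have hlog8' : 0 ≤ Real.log 8 := Real.log_nonneg (by norm_num)
  have hlogN : Real.log ((n : ℝ) + k + 1) ≤ Real.log (4 * n) :=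
    Real.log_le_log (by positivity) (by linarith)
  have hlogN0 : 0 ≤ Real.log ((n : ℝ) + k + 1) := Real.log_nonneg (by linarith [(Nat.cast_nonneg k : (0:ℝ) ≤ k)])
  have hmain : ((n : ℝ) + k) * Real.log 8 + (m * (Nat.sqrt n : ℝ)) * Real.log ((n : ℝ) + k + 1) <
      k * Real.log ((Nat.sqrt n : ℝ) + 2) := by
    have e1 : ((n : ℝ) + k) * Real.log 8 ≤ (2 * n) * 2.1 := by
      apply mul_le_mul (by linarith) hlog8 hlog8' (by linarith)
    have e2 : (m * (Nat.sqrt n : ℝ)) * Real.log ((n : ℝ) + k + 1) ≤ n / 2 := by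
      have : (m * (Nat.sqrt n : ℝ)) * Real.log ((n : ℝ) + k + 1) ≤
          m * (Real.sqrt n * Real.log (4 * n)) := by
        rw [mul_assoc]
        gcongr
      have hp : 0 ≤ Real.sqrt n * Real.log (4 * n) :=
        mul_nonneg hsqpos.le (Real.log_nonneg (by linarith))
      nlinarith
    have e3 : (12 * n / Real.log n - 1) * (Real.log n / 2) ≤ k * Real.log ((Nat.sqrt n : ℝ) + 2) := by
      have h0 : 0 ≤ 12 * n / Real.log n - 1 := by
        rw [sub_nonneg, le_div_iff₀ hlogpos]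
        linarith
      apply mul_le_mul hkge.le hlogr (by positivity) (by positivity)
    have e4 : (12 * n / Real.log n - 1) * (Real.log n / 2) = 6 * n - Real.log n / 2 := by
      field_simp
      ring
    rw [e4] at e3
    linarith
  have hlogs : Real.log ((8 : ℝ) ^ (n + k) * ((n : ℝ) + k + 1) ^ (m * (Nat.sqrt n))) <
      Real.log (((Nat.sqrt n : ℝ) + 2) ^ k) := by
    rw [Real.log_mul (by positivity) (by positivity), Real.log_pow, Real.log_pow, Real.log_pow]
    push_cast
    exact hmain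
  have hfin := (Real.log_lt_log_iff (by positivity) (by positivity)).1 hlogs
  exact_mod_cast hfin

theorem red_mono {n N N' : ℕ} (h : N ≤ N') (c : Finset (Fin N') → Bool)
    (hred : ∃ g : Finset (Fin n) ↪o Finset (Fin N),
      ∀ s, c ((g s).map (Fin.castLEEmb h)) = false) :
    ∃ g : Finset (Fin n) ↪o Finset (Fin N'), ∀ s, c (g s) = false := by
  obtain ⟨g, hg⟩ := hred
  exact ⟨g.trans (Finset.mapEmbedding (Fin.castLEEmb h)), fun s => hg s⟩

theorem blueSE_mono {m N N' : ℕ} (h : N ≤ N') (c : Finset (Fin N') → Bool)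
    (hb : BlueSE (fun s : Finset (Fin N) => c (s.map (Fin.castLEEmb h))) m) : BlueSE c m := by
  obtain ⟨A, D, a, b, hA, hD, ha, hb, hab⟩ := hb
  refine ⟨A.map (Fin.castLEEmb h), D.map (Fin.castLEEmb h), fun k => (a k).map (Fin.castLEEmb h),
    fun k => (b k).map (Fin.castLEEmb h), hA, hD, fun k => ⟨(ha k).1, ?_, ?_⟩,
    fun k => ⟨(hb k).1, ?_, ?_⟩, fun k l => ?_⟩
  · exact Finset.map_subset_map.2 (ha k).2.1
  · exact Finset.map_subset_map.2 (ha k).2.2
  · exact Finset.map_subset_map.2 (hb k).2.1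
  · exact Finset.map_subset_map.2 (hb k).2.2
  · rw [Finset.map_subset_map]
    exact hab k l

theorem ramsey_SE (m : ℕ) : ∀ᶠ n : ℕ in atTop, ∀ N : ℕ,
    (n : ℝ) + 12 * n / Real.log n ≤ N → ∀ c : Finset (Fin N) → Bool,
      BlueSE c (m + 1) ∨ ∃ g : Finset (Fin n) ↪o Finset (Fin N), ∀ s, c (g s) = false := by
  filter_upwards [numeric m, eventually_ge_atTop 2] with n hn hn2 N hN c
  set k := ⌊12 * (n : ℝ) / Real.log n⌋₊ with hk
  have hnn : (2 : ℝ) ≤ n := by exact_mod_cast hn2
  have hlog : 0 ≤ Real.log n := Real.log_nonneg (by linarith)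
  have hle : n + k ≤ N := by
    have h1 : (k : ℝ) ≤ 12 * n / Real.log n := Nat.floor_le (by positivity)
    have : ((n + k : ℕ) : ℝ) ≤ N := by
      push_cast
      linarith
    exact_mod_cast this
  by_contra hcon
  push Not at hcon
  obtain ⟨hb, hr⟩ := hcon
  have h := count_or_blueSE n k (Nat.sqrt n) m (fun s => c (s.map (Fin.castLEEmb hle)))
    (fun hred => by
      obtain ⟨g, hg⟩ := red_mono hle c hred
      obtain ⟨s, hs⟩ := hr g
      exact hs (hg s))
    (fun h => hb (blueSE_mono hle c h))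
  exact absurd (hn k hk) (not_lt.2 h)

end Pool.Agent.H23.PRam
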