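import Pool.Agent.H23.PRam.Asym

/-!
# Asymptotics, II
-/

set_option autoImplicit false

namespace Pool.Agent.H23.PRam

open Finset Filter

theorem numeric_E (s m : ℕ) (hs : 0 < s) : ∃ C : ℕ, ∀ᶠ n : ℕ in atTop, ∃ k r : ℕ,
    (s * k : ℝ) ≤ C * n / Real.log n ∧
    s * 4 ^ (n + s * k) * (6 ^ (n + s * k) * (n + s * k + 1) ^ (m * (r * r))) < (r + 2) ^ k := by
  refine ⟨40 * s, ?_⟩
  have hs1 : (1 : ℝ) ≤ s := by exact_mod_cast hs
  have hlogt : Tendsto (fun n : ℕ => Real.log n) atTop atTop :=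
    Real.tendsto_log_atTop.comp tendsto_natCast_atTop_atTop
  have hlo : ∀ᶠ n : ℕ in atTop, (4:ℝ) * Real.log n ≤ n := by
    have h2 : (fun x : ℝ => Real.log x) =o[atTop] fun x : ℝ => x := Real.isLittleO_log_id_atTop
    have h4 := (h2.comp_tendsto tendsto_natCast_atTop_atTop).def
      (show (0 : ℝ) < 1 / 4 by norm_num)
    filter_upwards [h4, eventually_ge_atTop 1] with n hn hn1
    simp only [Function.comp] at hn
    have hn0 : (1 : ℝ) ≤ n := by exact_mod_cast hn1
    rw [Real.norm_of_nonneg (Real.log_nonneg hn0), Real.norm_of_nonneg (by linarith)] at hn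
    linarith
  filter_upwards [hlogt.eventually_ge_atTop (40 * s), eventually_sqrt_log (2 * m + 1) (by positivity),
    eventually_ge_atTop 4, hlo, tendsto_natCast_atTop_atTop.eventually_ge_atTop (Real.log s)]
    with n h12 hsq hn4 hlo hns
  have hn0 : (4 : ℝ) ≤ n := by exact_mod_cast hn4
  have hlogpos : 0 < Real.log n := by linarith
  set k := ⌊40 * (n : ℝ) / Real.log n⌋₊ with hk
  set q := Nat.sqrt n with hq
  set r := Nat.sqrt q with hrdef
  have hkle : (k : ℝ) ≤ 40 * n / Real.log n := by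
    rw [hk]; exact Nat.floor_le (by positivity)
  have hkge : 40 * n / Real.log n - 1 < (k : ℝ) := by
    rw [hk]; exact Nat.sub_one_lt_floor _
  have hskle : (s * k : ℝ) ≤ (40 * s : ℕ) * n / Real.log n := by
    calc (s * k : ℝ) ≤ s * (40 * n / Real.log n) := by gcongr
      _ = _ := by push_cast; ring
  refine ⟨k, r, hskle, ?_⟩
  have hkn : (s * k : ℝ) ≤ n := by
    refine hskle.trans ?_
    rw [div_le_iff₀ hlogpos]
    push_cast
    nlinarith
  have hq2 : (q : ℝ) ≤ Real.sqrt n := Real.nat_sqrt_le_real_sqrt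
  have hrr : (r * r : ℝ) ≤ Real.sqrt n := by
    have : r * r ≤ q := Nat.sqrt_le q
    have h1 : ((r * r : ℕ) : ℝ) ≤ q := by exact_mod_cast this
    push_cast at h1
    linarith
  -- `r + 2 ≥ n ^ (1/4)`
  have hqs : Real.sqrt n ≤ (q : ℝ) + 1 := by
    have h1 : n < (q + 1) * (q + 1) := Nat.lt_succ_sqrt n
    have h2 : (n : ℝ) ≤ ((q : ℝ) + 1) ^ 2 := by
      have : (n : ℝ) < ((q + 1) * (q + 1) : ℕ) := by exact_mod_cast h1
      push_cast at this
      nlinarith
    calc Real.sqrt n ≤ Real.sqrt (((q : ℝ) + 1) ^ 2) := Real.sqrt_le_sqrt h2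
      _ = (q : ℝ) + 1 := Real.sqrt_sq (by positivity)
  have hrs : Real.sqrt (Real.sqrt n) ≤ (r : ℝ) + 2 := by
    have h1 : q < (r + 1) * (r + 1) := Nat.lt_succ_sqrt q
    have h2 : (q : ℝ) ≤ ((r : ℝ) + 1) ^ 2 := by
      have : (q : ℝ) < ((r + 1) * (r + 1) : ℕ) := by exact_mod_cast h1
      push_cast at this
      nlinarith
    have h3 : Real.sqrt n ≤ ((r : ℝ) + 2) ^ 2 := by
      have hr0 : (0 : ℝ) ≤ r := Nat.cast_nonneg r
      nlinarith
    calc Real.sqrt (Real.sqrt n) ≤ Real.sqrt (((r : ℝ) + 2) ^ 2) := Real.sqrt_le_sqrt h3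
      _ = (r : ℝ) + 2 := Real.sqrt_sq (by positivity)
  have hsqpos : 0 < Real.sqrt n := Real.sqrt_pos.2 (by linarith)
  have hsqpos2 : 0 < Real.sqrt (Real.sqrt n) := Real.sqrt_pos.2 hsqpos
  have hlogr : Real.log n / 4 ≤ Real.log ((r : ℝ) + 2) := by
    have : Real.log (Real.sqrt (Real.sqrt n)) = Real.log n / 4 := by
      rw [Real.log_sqrt hsqpos.le, Real.log_sqrt (by linarith)]
      ring
    rw [← this]
    exact Real.log_le_log hsqpos2 hrs
  have hlog24 : Real.log 4 + Real.log 6 ≤ 3.5 := by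
    have e4 : Real.log 4 = 2 * Real.log 2 := by
      rw [show (4 : ℝ) = 2 ^ (2 : ℕ) by norm_num, Real.log_pow]; norm_num
    have e6 : Real.log 6 ≤ 3 * Real.log 2 := by
      have : Real.log 8 = 3 * Real.log 2 := by
        rw [show (8 : ℝ) = 2 ^ (3 : ℕ) by norm_num, Real.log_pow]; norm_num
      rw [← this]
      exact Real.log_le_log (by norm_num) (by norm_num)
    have := Real.log_two_lt_d9
    linarith
  have hlogN : Real.log ((n : ℝ) + s * k + 1) ≤ Real.log (4 * n) :=
    Real.log_le_log (by positivity) (by linarith)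
  have hlogN0 : 0 ≤ Real.log ((n : ℝ) + s * k + 1) :=
    Real.log_nonneg (by
      have : (0 : ℝ) ≤ s * k := by positivity
      linarith)
  have hmain : Real.log s + ((n : ℝ) + s * k) * Real.log 4 + (((n : ℝ) + s * k) * Real.log 6 +
      (m * (r * r : ℝ)) * Real.log ((n : ℝ) + s * k + 1)) < k * Real.log ((r : ℝ) + 2) := by
    have e1 : ((n : ℝ) + s * k) * (Real.log 4 + Real.log 6) ≤ (2 * n) * 3.5 := by
      apply mul_le_mul (by linarith) hlog24
        (add_nonneg (Real.log_nonneg (by norm_num)) (Real.log_nonneg (by norm_num))) (by linarith)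
    have e2 : (m * (r * r : ℝ)) * Real.log ((n : ℝ) + s * k + 1) ≤ n / 2 := by
      have : (m * (r * r : ℝ)) * Real.log ((n : ℝ) + s * k + 1) ≤
          m * (Real.sqrt n * Real.log (4 * n)) := by
        rw [mul_assoc]
        gcongr
      have hp : 0 ≤ Real.sqrt n * Real.log (4 * n) :=
        mul_nonneg hsqpos.le (Real.log_nonneg (by linarith))
      nlinarith
    have e3 : (40 * n / Real.log n - 1) * (Real.log n / 4) ≤ k * Real.log ((r : ℝ) + 2) := by
      have h0 : 0 ≤ 40 * n / Real.log n - 1 := by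
        rw [sub_nonneg, le_div_iff₀ hlogpos]
        linarith
      apply mul_le_mul hkge.le hlogr (by positivity) (by positivity)
    have e4 : (40 * n / Real.log n - 1) * (Real.log n / 4) = 10 * n - Real.log n / 4 := by
      field_simp
      ring
    rw [e4] at e3
    linarith
  have hlogs : Real.log ((s : ℝ) * 4 ^ (n + s * k) * (6 ^ (n + s * k) *
      ((n : ℝ) + s * k + 1) ^ (m * (r * r)))) < Real.log (((r : ℝ) + 2) ^ k) := by
    have hp : (0 : ℝ) < (n : ℝ) + s * k + 1 := by positivity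
    rw [Real.log_mul (by positivity) (by positivity), Real.log_mul (by positivity) (by positivity),
      Real.log_mul (by positivity) (by positivity), Real.log_pow, Real.log_pow, Real.log_pow,
      Real.log_pow]
    push_cast
    exact hmain
  have hfin := (Real.log_lt_log_iff (by positivity) (by positivity)).1 hlogs
  exact_mod_cast hfin

end Pool.Agent.H23.PRam
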