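import Pool.Agent.H23.PRam.Act

/-!
# Chains all of whose coordinates are active

`UU G j m`: a universal bipartite structure at the cut `j`.  `XI G m`: a universal structure of height three.
-/

set_option autoImplicit false

namespace Pool.Agent.H23.PRam

open Finset

variable {α : Type*} [DecidableEq α]

theorem card_traces_le (𝒱 : Finset (Finset α)) (N : Finset α) (m : ℕ)
    (h : ¬ ∃ x : Fin m → α, (∀ k, x k ∈ N) ∧ ∀ S : Finset (Fin m), ∃ v ∈ 𝒱, ∀ k, x k ∈ v ↔ k ∈ S) :
    (𝒱.image (fun v => v ∩ N)).card ≤ (N.card + 1) ^ m := by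
  classical
  refine card_le_of_not_shatters _ N ?_ m ?_
  · intro s hs
    rw [mem_image] at hs
    obtain ⟨v, _, rfl⟩ := hs
    exact inter_subset_right
  · intro X hX hXc hsh
    apply h
    let e := (Finset.equivFinOfCardEq hXc)
    refine ⟨fun k => (e.symm k : α), fun k => hX (e.symm k).2, ?_⟩
    intro S
    obtain ⟨t, ht, hXt⟩ := hsh (t := S.map (e.symm.toEmbedding.trans (Function.Embedding.subtype _)))
      (by
        intro z hz
        rw [mem_map] at hz
        obtain ⟨k, _, rfl⟩ := hz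
        exact (e.symm k).2)
    rw [mem_image] at ht
    obtain ⟨v, hv, rfl⟩ := ht
    refine ⟨v, hv, fun k => ?_⟩
    have hk : (e.symm k : α) ∈ X := (e.symm k).2
    have h1 : (e.symm k : α) ∈ v ↔ (e.symm k : α) ∈ X ∩ (v ∩ N) := by
      rw [mem_inter, mem_inter]
      exact ⟨fun h => ⟨hk, h, hX hk⟩, fun h => h.2.1⟩
    rw [h1, hXt, mem_map]
    constructor
    · rintro ⟨k', hk', he⟩
      have : k' = k := e.symm.injective (Subtype.ext he)
      rwa [← this]
    · intro hk'
      exact ⟨k, hk', rfl⟩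

/-- a universal bipartite structure at the cut `j` -/
def UU {r : ℕ} (G : Fin (r + 1) → Finset (Finset α)) (j : Fin r) (m : ℕ) : Prop :=
  ∃ (E : Fin m → Finset α) (B : Finset (Fin m) → Finset α),
    (∀ k, ∃ i ≤ j.castSucc, E k ∈ G i) ∧ (∀ S, ∃ i ≥ j.succ, B S ∈ G i) ∧ ∀ k S, E k ⊆ B S ↔ k ∈ S

open Classical in
theorem base_U {r : ℕ} (F0 : Fin (r + 1) → Finset (Finset α)) (m : ℕ) (hU : ∀ j, ¬ UU F0 j m)
    (K : Finset α) (F : Fin (r + 1) → Finset (Finset α)) (L : Fin (r + 1) → Finset α → Finset α)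
    (h : IsFull F0 F K L) :
    (GChains F0 F L K).card ≤ 2 ^ K.card * ((K.card + 1) ^ m) ^ r := by
  let N : Fin r → Finset α → Finset α := fun j A =>
    K.filter (fun x => x ∉ A ∧ PAct F0 F L j.castSucc A x)
  let 𝒱 : Fin r → Finset α → Finset (Finset α) := fun j A => (F j.succ).filter (fun v => A ⊆ v)
  let Opt : Fin r → Finset α → Finset (Finset α) := fun j A =>
    ((𝒱 j A).image (fun v => v ∩ N j A)).image (fun t => A ∪ t)
  rw [← Finset.card_powerset K]
  refine card_seq_le (GChains F0 F L K) K.powerset Opt _ ?_ ?_ ?_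
  · intro M hM
    rw [mem_GChains] at hM
    exact mem_powerset.2 (h.sub 0 _ (hM.1.1 0))
  · intro M hM j
    rw [mem_GChains] at hM
    have hmj : M j.castSucc ⊆ M j.succ := hM.1.2 (Fin.castSucc_lt_succ (i := j)).le
    refine mem_image.2 ⟨M j.succ ∩ N j (M j.castSucc), mem_image.2 ⟨M j.succ, ?_, rfl⟩, ?_⟩
    · exact mem_filter.2 ⟨hM.1.1 _, hmj⟩
    · ext z
      rw [mem_union, mem_inter]
      constructor
      · rintro (hz | hz)
        · exact hmj hz
        · exact hz.1
      · intro hz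
        by_cases hz0 : z ∈ M j.castSucc
        · exact Or.inl hz0
        · refine Or.inr ⟨hz, ?_⟩
          have hzK : z ∈ K := h.sub _ _ (hM.1.1 _) hz
          exact mem_filter.2 ⟨hzK, hz0, (hM.2 j z hzK hz0 hz).1⟩
  · intro M hM j
    rw [mem_GChains] at hM
    refine card_image_le.trans ?_
    refine (card_traces_le (𝒱 j (M j.castSucc)) (N j (M j.castSucc)) m ?_).trans
      (Nat.pow_le_pow_left (Nat.add_le_add_right (card_le_card (filter_subset _ _)) 1) m)
    rintro ⟨x, hx, hS⟩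
    apply hU j
    have hx' : ∀ k, x k ∈ K ∧ x k ∉ M j.castSucc ∧ PAct F0 F L j.castSucc (M j.castSucc) (x k) :=
      fun k => mem_filter.1 (hx k)
    choose v hv hvS using hS
    choose iE hiE E hE hxE hEL using fun k => (hx' k).2.2
    refine ⟨E, fun S => L j.succ (v S), fun k => ⟨iE k, hiE k, hE k⟩, fun S => ⟨j.succ, le_rfl,
      h.mem _ _ (mem_filter.1 (hv S)).1⟩, fun k S => ⟨fun hES => ?_, fun hkS => ?_⟩⟩
    · rw [← hvS S k]
      have h1 : x k ∈ L j.succ (v S) ∩ K := mem_inter.2 ⟨hES (hxE k), (hx' k).1⟩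
      rw [h.tr _ _ (mem_filter.1 (hv S)).1] at h1
      exact h1
    · exact hEL k j.succ (Fin.castSucc_lt_succ (i := j)).le (v S) (mem_filter.1 (hv S)).1
        (mem_filter.1 (hv S)).2 ((hvS S k).2 hkS)

/-- **Theorem B**: families without universal bipartite structure have few chains. -/
theorem card_chains_le_UU {r : ℕ} (V : Finset α) (F0 : Fin (r + 1) → Finset (Finset α))
    (hV : ∀ i, ∀ u ∈ F0 i, u ⊆ V) (m : ℕ) (hU : ∀ j, ¬ UU F0 j m) :
    (Chains F0).card ≤ 4 ^ V.card * (V.card + 1) ^ (m * r) := by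
  refine card_chains_le_of_base F0 V hV 2 _ ?_
  intro K F L hK h
  refine (base_U F0 m hU K F L h).trans (Nat.mul_le_mul_left _ ?_)
  rw [← pow_mul]
  exact Nat.pow_le_pow_left (Nat.add_le_add_right (card_le_card hK) 1) _

/-- a universal structure of height three at the level `b` -/
def XI {r : ℕ} (G : Fin (r + 1) → Finset (Finset α)) (m : ℕ) : Prop :=
  ∃ (b : Fin (r + 1)) (E E' : Fin m → Finset α) (B : Finset (Fin m) → Finset α),
    (∀ k, ∃ i ≤ b, E k ∈ G i) ∧ (∀ k, ∃ i ≥ b, E' k ∈ G i) ∧ (∀ S, B S ∈ G b) ∧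
      (∀ k S, k ∈ S → E k ⊆ B S) ∧ (∀ k S, k ∉ S → B S ⊆ E' k) ∧ ∀ k, ¬ E k ⊆ E' k

theorem card_refine_le {β γ δ : Type*} [DecidableEq γ] {r : ℕ} (C : Finset β) (A : Finset γ)
    (b : ℕ) (f : β → γ) (g : β → Fin r → δ) (Opt : γ → Fin r → Finset δ)
    (hf : ∀ M ∈ C, f M ∈ A) (hO : ∀ M ∈ C, ∀ j, g M j ∈ Opt (f M) j)
    (hb : ∀ M ∈ C, ∀ j, (Opt (f M) j).card ≤ b)
    (hinj : ∀ M ∈ C, ∀ M' ∈ C, f M = f M' → g M = g M' → M = M') :
    C.card ≤ A.card * b ^ r := by
  classical
  have hcard : (A ×ˢ Fintype.piFinset (fun _ : Fin r => range b)).card = A.card * b ^ r := by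
    rw [card_product, Fintype.card_piFinset]
    simp
  rw [← hcard]
  refine Finset.card_le_card_of_injOn
    (fun M => (f M, fun j => idx (Opt (f M) j) (g M j))) ?_ ?_
  · intro M hM
    rw [mem_coe, mem_product, Fintype.mem_piFinset]
    exact ⟨hf M hM, fun j => mem_range.2 ((idx_lt (hO M hM j)).trans_le (hb M hM j))⟩
  · intro M hM M' hM' hMM
    simp only [Prod.mk.injEq] at hMM
    refine hinj M hM M' hM' hMM.1 ?_
    funext j
    have h1 := congrFun hMM.2 j
    simp only [← hMM.1] at h1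
    have h2 := hO M' hM' j
    rw [← hMM.1] at h2
    exact idx_inj (hO M hM j) h2 h1

/-- even levels -/
def ev {r : ℕ} (i : Fin (r + 1)) : Fin (2 * r + 1) := ⟨2 * i, by omega⟩

/-- odd levels -/
def od {r : ℕ} (i : Fin r) : Fin (2 * r + 1) := ⟨2 * i + 1, by omega⟩

theorem ev_mono {r : ℕ} {i i' : Fin (r + 1)} (h : i ≤ i') : ev i ≤ ev i' := by
  rw [Fin.le_def] at h ⊢
  simp only [ev]
  omega

theorem ev_or_od {r : ℕ} (i : Fin (2 * r + 1)) : (∃ i', i = ev i') ∨ ∃ i', i = od i' := by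
  rcases Nat.even_or_odd' (i : ℕ) with ⟨q, hq | hq⟩
  · exact Or.inl ⟨⟨q, by omega⟩, Fin.ext hq⟩
  · exact Or.inr ⟨⟨q, by omega⟩, Fin.ext hq⟩

open Classical in
/-- the odd levels are determined by the even ones up to few choices -/
theorem card_gchains_even_le {r : ℕ} (F0 : Fin (2 * r + 1) → Finset (Finset α)) (m : ℕ)
    (hX : ¬ XI F0 m) (K : Finset α) (F : Fin (2 * r + 1) → Finset (Finset α))
    (L : Fin (2 * r + 1) → Finset α → Finset α) (h : IsFull F0 F K L) :
    (GChains F0 F L K).card ≤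
      (Chains (fun i : Fin (r + 1) => F (ev i))).card * ((K.card + 1) ^ m) ^ r := by
  let Nq : (Fin (r + 1) → Finset α) → Fin r → Finset α := fun A i =>
    (A i.succ \ A i.castSucc).filter
      (fun x => ¬ QAct F0 F L (ev i.succ) (A i.succ) x)
  let N : (Fin (r + 1) → Finset α) → Fin r → Finset α := fun A i =>
    K.filter (fun x => x ∈ A i.succ ∧ x ∉ A i.castSucc ∧
      PAct F0 F L (ev i.castSucc) (A i.castSucc) x ∧ QAct F0 F L (ev i.succ) (A i.succ) x)
  let 𝒱 : (Fin (r + 1) → Finset α) → Fin r → Finset (Finset α) := fun A i =>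
    (F (od i)).filter (fun v => A i.castSucc ⊆ v ∧ v ⊆ A i.succ)
  let Opt : (Fin (r + 1) → Finset α) → Fin r → Finset (Finset α) := fun A i =>
    ((𝒱 A i).image (fun v => v ∩ N A i)).image (fun t => (A i.castSucc ∪ Nq A i) ∪ t)
  have hle1 : ∀ i : Fin r, ev i.castSucc ≤ od i := by
    intro i; rw [Fin.le_def]; simp [ev, od]
  have hle2 : ∀ i : Fin r, od i ≤ ev i.succ := by
    intro i; rw [Fin.le_def]; simp only [ev, od, Fin.val_succ]; omega
  refine card_refine_le (GChains F0 F L K) _ _ (fun M i => M (ev i)) (fun M i => M (od i)) Opt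
    ?_ ?_ ?_ ?_
  · intro M hM
    rw [mem_GChains] at hM
    rw [mem_Chains]
    exact ⟨fun i => hM.1.1 _, fun i i' hii => hM.1.2 (ev_mono hii)⟩
  · intro M hM i
    rw [mem_GChains] at hM
    have h1 : M (ev i.castSucc) ⊆ M (od i) := hM.1.2 (hle1 i)
    have h2 : M (od i) ⊆ M (ev i.succ) := hM.1.2 (hle2 i)
    have hact : ∀ x ∈ M (ev i.succ), x ∉ M (ev i.castSucc) →
        (x ∈ M (od i) ∧ PAct F0 F L (ev i.castSucc) (M (ev i.castSucc)) x) ∨
        (x ∉ M (od i) ∧ QAct F0 F L (ev i.succ) (M (ev i.succ)) x) := by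
      intro x hx hx0
      have hxK : x ∈ K := h.sub _ _ (hM.1.1 _) hx
      by_cases hxo : x ∈ M (od i)
      · refine Or.inl ⟨hxo, ?_⟩
        have := hM.2 (⟨2 * i, by omega⟩ : Fin (2 * r)) x hxK hx0 hxo
        exact this.1
      · refine Or.inr ⟨hxo, ?_⟩
        have e1 : (⟨2 * i + 1, by omega⟩ : Fin (2 * r)).succ = ev i.succ := by
          apply Fin.ext; simp [ev]; omega
        have := hM.2 (⟨2 * i + 1, by omega⟩ : Fin (2 * r)) x hxK hxo (by rw [e1]; exact hx)
        rw [e1] at this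
        exact this.2
    have hact1 : ∀ x ∈ M (ev i.succ), x ∉ M (ev i.castSucc) → x ∈ M (od i) →
        PAct F0 F L (ev i.castSucc) (M (ev i.castSucc)) x := by
      intro x hx hx0 hxo
      rcases hact x hx hx0 with h3 | h3
      · exact h3.2
      · exact absurd hxo h3.1
    have hact2 : ∀ x ∈ M (ev i.succ), x ∉ M (ev i.castSucc) → x ∉ M (od i) →
        QAct F0 F L (ev i.succ) (M (ev i.succ)) x := by
      intro x hx hx0 hxo
      rcases hact x hx hx0 with h3 | h3
      · exact absurd h3.1 hxo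
      · exact h3.2
    refine mem_image.2 ⟨M (od i) ∩ N (fun i => M (ev i)) i, mem_image.2 ⟨M (od i), ?_, rfl⟩, ?_⟩
    · exact mem_filter.2 ⟨hM.1.1 _, h1, h2⟩
    · ext z
      simp only [N, Nq, mem_union, mem_inter, mem_filter, mem_sdiff]
      constructor
      · rintro ((hz | hz) | hz)
        · exact h1 hz
        · by_contra hzo
          exact hz.2 (hact2 z hz.1.1 hz.1.2 hzo)
        · exact hz.1
      · intro hz
        by_cases hz0 : z ∈ M (ev i.castSucc)
        · exact Or.inl (Or.inl hz0)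
        · by_cases hq : QAct F0 F L (ev i.succ) (M (ev i.succ)) z
          · exact Or.inr ⟨hz, h.sub _ _ (hM.1.1 _) hz, h2 hz, hz0, hact1 z (h2 hz) hz0 hz, hq⟩
          · exact Or.inl (Or.inr ⟨⟨h2 hz, hz0⟩, hq⟩)
  · intro M hM i
    rw [mem_GChains] at hM
    refine card_image_le.trans ?_
    refine (card_traces_le _ (N (fun i => M (ev i)) i) m ?_).trans
      (Nat.pow_le_pow_left (Nat.add_le_add_right (card_le_card (filter_subset _ _)) 1) m)
    rintro ⟨x, hx, hS⟩
    apply hX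
    have hx' : ∀ k, x k ∈ K ∧ x k ∈ M (ev i.succ) ∧ x k ∉ M (ev i.castSucc) ∧
      PAct F0 F L (ev i.castSucc) (M (ev i.castSucc)) (x k) ∧
      QAct F0 F L (ev i.succ) (M (ev i.succ)) (x k) := fun k => mem_filter.1 (hx k)
    choose v hv hvS using hS
    have hv' : ∀ S, v S ∈ F (od i) ∧ M (ev i.castSucc) ⊆ v S ∧ v S ⊆ M (ev i.succ) :=
      fun S => mem_filter.1 (hv S)
    choose iE hiE E hE hxE hEL using fun k => (hx' k).2.2.2.1
    choose iE' hiE' E' hE' hxE' hEL' using fun k => (hx' k).2.2.2.2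
    refine ⟨od i, E, E', fun S => L (od i) (v S), fun k => ⟨iE k, (hiE k).trans (hle1 i), hE k⟩,
      fun k => ⟨iE' k, (hle2 i).trans (hiE' k), hE' k⟩, fun S => h.mem _ _ (hv' S).1, ?_, ?_, ?_⟩
    · intro k S hkS
      exact hEL k (od i) (hle1 i) (v S) (hv' S).1 (hv' S).2.1 ((hvS S k).2 hkS)
    · intro k S hkS
      exact hEL' k (od i) (hle2 i) (v S) (hv' S).1 (hv' S).2.2 (fun hc => hkS ((hvS S k).1 hc))
    · intro k hsub
      exact hxE' k (hsub (hxE k))
  · intro M hM M' hM' h1 h2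
    funext i
    rcases ev_or_od i with ⟨i', rfl⟩ | ⟨i', rfl⟩
    · exact congrFun h1 i'
    · exact congrFun h2 i'

theorem XI.lift {r : ℕ} {F0 : Fin (2 * r + 1) → Finset (Finset α)} {m : ℕ} {K : Finset α}
    {F : Fin (2 * r + 1) → Finset (Finset α)} {L : Fin (2 * r + 1) → Finset α → Finset α}
    (h : IsFull F0 F K L) (hX : XI (fun i : Fin (r + 1) => F (ev i)) m) : XI F0 m := by
  obtain ⟨b, E, E', B, hE, hE', hB, h1, h2, h3⟩ := hX
  choose i hi hEi using hE
  choose i' hi' hEi' using hE'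
  refine ⟨ev b, fun k => L (ev (i k)) (E k), fun k => L (ev (i' k)) (E' k),
    fun S => L (ev b) (B S), fun k => ⟨_, ev_mono (hi k), h.mem _ _ (hEi k)⟩,
    fun k => ⟨_, ev_mono (hi' k), h.mem _ _ (hEi' k)⟩, fun S => h.mem _ _ (hB S), ?_, ?_, ?_⟩
  · intro k S hk
    exact h.mono _ _ _ _ (ev_mono (hi k)) (hEi k) (hB S) (h1 k S hk)
  · intro k S hk
    exact h.mono _ _ _ _ (ev_mono (hi' k)) (hB S) (hEi' k) (h2 k S hk)
  · intro k hsub
    apply h3 k
    have := Finset.inter_subset_inter_right (u := K) hsub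
    rw [h.tr _ _ (hEi k), h.tr _ _ (hEi' k)] at this
    exact this

/-- `2 ^ c` by recursion -/
def rr : ℕ → ℕ
  | 0 => 1
  | c + 1 => 2 * rr c

theorem rr_eq (c : ℕ) : rr c = 2 ^ c := by
  induction c with
  | zero => rfl
  | succ c ih => rw [rr, ih, pow_succ]; ring

/-- **Theorem D**: families without universal structure of height three have few chains. -/
theorem card_chains_le_XI (m : ℕ) (c : ℕ) : ∀ (V : Finset α)
    (F0 : Fin (rr c + 1) → Finset (Finset α)) (_ : ∀ i, ∀ u ∈ F0 i, u ⊆ V) (_ : ¬ XI F0 m),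
    (Chains F0).card ≤ (2 * c + 4) ^ V.card * (V.card + 1) ^ (m * rr c) := by
  classical
  induction c with
  | zero =>
    intro V F0 hV _
    have h1 : (Chains F0).card ≤ 4 ^ V.card := by
      have : (V.powerset ×ˢ V.powerset).card = 4 ^ V.card := by
        rw [card_product, card_powerset, ← mul_pow]
        norm_num
      rw [← this]
      refine Finset.card_le_card_of_injOn (fun M => (M (0 : Fin 2), M (1 : Fin 2))) ?_ ?_
      · intro M hM
        rw [mem_coe, mem_Chains] at hM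
        rw [mem_coe, mem_product, mem_powerset, mem_powerset]
        exact ⟨hV _ _ (hM.1 _), hV _ _ (hM.1 _)⟩
      · intro M _ M' _ hMM
        simp only [Prod.mk.injEq] at hMM
        funext i
        change Fin 2 at i
        fin_cases i
        · exact hMM.1
        · exact hMM.2
    calc (Chains F0).card ≤ 4 ^ V.card * 1 := by rw [mul_one]; exact h1
      _ ≤ _ := Nat.mul_le_mul (by simp) (Nat.one_le_pow _ _ (Nat.succ_pos _))
  | succ c ih =>
    intro V F0 hV hX
    refine (card_chains_le_of_base F0 V hV (2 * c + 4)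
      ((V.card + 1) ^ (m * rr c) * (V.card + 1) ^ (m * rr c)) ?_).trans ?_
    · intro K F L hK h
      refine (card_gchains_even_le F0 m hX K F L h).trans ?_
      have h2 := ih K (fun i => F (ev i)) (fun i u hu => h.sub _ _ hu) (fun hc => hX (XI.lift h hc))
      have h3 : (K.card + 1) ^ (m * rr c) ≤ (V.card + 1) ^ (m * rr c) :=
        Nat.pow_le_pow_left (Nat.add_le_add_right (card_le_card hK) 1) _
      rw [← pow_mul]
      calc _ ≤ (2 * c + 4) ^ K.card * (K.card + 1) ^ (m * rr c) * (K.card + 1) ^ (m * rr c) :=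
            Nat.mul_le_mul_right _ h2
        _ ≤ (2 * c + 4) ^ K.card * (V.card + 1) ^ (m * rr c) * (V.card + 1) ^ (m * rr c) :=
            Nat.mul_le_mul (Nat.mul_le_mul_left _ h3) h3
        _ = _ := by ring
    · have e1 : m * rr (c + 1) = m * rr c + m * rr c := by rw [rr]; ring
      rw [e1, pow_add]
      exact le_of_eq (by ring_nf)

end Pool.Agent.H23.PRam
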