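import Mathlib

/-!
# The chain lemma

`X`, `Y` disjoint finite sets, `|X| ≥ n`, `Z 0 ⊆ Z 1 ⊆ … ⊆ Z T` subsets of `Y`.  A 2-colouring of the subsets
without red (`false`) copy of `Q_n` has blue sets `B 0 ⊆ … ⊆ B T` with `B i ∩ Y = Z i`.
(Coarse form of the chain lemma of Axenovich and Winter.)
-/

set_option autoImplicit false

namespace Pool.Agent.H23.PRam

open Finset

variable {α : Type*} [DecidableEq α]

/-- there is a blue chain at the levels `0, …, j - 1` inside `M ∪ Y` -/
def HasChain (c : Finset α → Bool) (Y : Finset α) (Z : ℕ → Finset α) (M : Finset α) (j : ℕ) :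
    Prop :=
  ∃ B : ℕ → Finset α, (∀ i i', i ≤ i' → i' < j → B i ⊆ B i') ∧
    ∀ i < j, c (B i) = true ∧ B i ∩ Y = Z i ∧ B i ⊆ M ∪ Y

theorem HasChain.mono {c : Finset α → Bool} {Y : Finset α} {Z : ℕ → Finset α} {M M' : Finset α}
    {j : ℕ} (h : HasChain c Y Z M j) (hM : M ⊆ M') : HasChain c Y Z M' j := by
  obtain ⟨B, h1, h2⟩ := h
  exact ⟨B, h1, fun i hi => ⟨(h2 i hi).1, (h2 i hi).2.1,
    (h2 i hi).2.2.trans (Finset.union_subset_union hM subset_rfl)⟩⟩

theorem hasChain_zero (c : Finset α → Bool) (Y : Finset α) (Z : ℕ → Finset α) (M : Finset α) :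
    HasChain c Y Z M 0 :=
  ⟨fun _ => ∅, fun _ _ _ h => absurd h (Nat.not_lt_zero _), fun _ h => absurd h (Nat.not_lt_zero _)⟩

theorem HasChain.succ {c : Finset α → Bool} {Y : Finset α} {Z : ℕ → Finset α} {M : Finset α}
    {j : ℕ} (h : HasChain c Y Z M j) (hZ : Monotone Z) (hZY : ∀ i, Z i ⊆ Y) (hMY : Disjoint M Y)
    (hc : c (M ∪ Z j) = true) : HasChain c Y Z M (j + 1) := by
  obtain ⟨B, h1, h2⟩ := h
  refine ⟨fun i => if i < j then B i else M ∪ Z j, ?_, ?_⟩
  · intro i i' hii hi'
    by_cases hj : i' < j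
    · have : i < j := lt_of_le_of_lt hii hj
      simp only [this, hj, if_true]
      exact h1 i i' hii hj
    · by_cases hi : i < j
      · simp only [hi, hj, if_true, if_false]
        intro z hz
        have h3 := (h2 i hi).2.2 hz
        rw [mem_union] at h3 ⊢
        rcases h3 with h3 | h3
        · exact Or.inl h3
        · refine Or.inr (hZ hi.le ?_)
          rw [← (h2 i hi).2.1]
          exact mem_inter.2 ⟨hz, h3⟩
      · simp only [hi, hj, if_false]
        exact subset_rfl
  · intro i hi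
    by_cases hj : i < j
    · simp only [hj, if_true]
      exact h2 i hj
    · have : i = j := by omega
      subst this
      simp only [lt_irrefl, if_false]
      refine ⟨hc, ?_, Finset.union_subset_union subset_rfl (hZY i)⟩
      rw [Finset.union_inter_distrib_right, Finset.disjoint_iff_inter_eq_empty.1 hMY,
        Finset.empty_union]
      exact Finset.inter_eq_left.2 (hZY i)

theorem exists_blue_chain (c : Finset α → Bool) (n T : ℕ) (X Y : Finset α) (hXY : Disjoint X Y)
    (hX : n ≤ X.card) (hred : ¬ ∃ g : Finset (Fin n) ↪o Finset α, ∀ s, c (g s) = false)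
    (Z : ℕ → Finset α) (hZ : Monotone Z) (hZY : ∀ i, Z i ⊆ Y) :
    ∃ B : ℕ → Finset α, (∀ i i', i ≤ i' → i' ≤ T → B i ⊆ B i') ∧
      ∀ i ≤ T, c (B i) = true ∧ B i ∩ Y = Z i ∧ B i ⊆ X ∪ Y := by
  classical
  by_cases hfull : ∃ M ⊆ X, HasChain c Y Z M (T + 1)
  · obtain ⟨M, hM, B, h1, h2⟩ := hfull
    refine ⟨B, fun i i' h h' => h1 i i' h (Nat.lt_succ_of_le h'), fun i hi => ?_⟩
    have := h2 i (Nat.lt_succ_of_le hi)
    exact ⟨this.1, this.2.1, this.2.2.trans (Finset.union_subset_union hM subset_rfl)⟩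
  exfalso
  push Not at hfull
  apply hred
  set jj : Finset α → ℕ := fun M => Nat.findGreatest (HasChain c Y Z M) T with hjj
  have hj1 : ∀ M, HasChain c Y Z M (jj M) := by
    intro M
    exact Nat.findGreatest_spec (P := HasChain c Y Z M) (Nat.zero_le T) (hasChain_zero c Y Z M)
  have hj2 : ∀ M ⊆ X, ¬ HasChain c Y Z M (jj M + 1) := by
    intro M hM h
    rcases Nat.lt_or_ge (jj M) T with hlt | hge
    · exact Nat.findGreatest_is_greatest (Nat.lt_succ_self _) hlt h
    · have : jj M = T := le_antisymm (Nat.findGreatest_le T) hge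
      rw [this] at h
      exact hfull M hM h
  have hjm : ∀ M M' : Finset α, M ⊆ M' → jj M ≤ jj M' := by
    intro M M' hMM
    exact Nat.le_findGreatest (Nat.findGreatest_le T) ((hj1 M).mono hMM)
  have hred2 : ∀ M ⊆ X, c (M ∪ Z (jj M)) = false := by
    intro M hM
    by_contra hcon
    rw [Bool.not_eq_false] at hcon
    exact hj2 M hM ((hj1 M).succ hZ hZY (Finset.disjoint_of_subset_left hM hXY) hcon)
  obtain ⟨X', hX', hX'c⟩ := Finset.exists_subset_card_eq hX
  let e : Fin n ↪ α :=
    (Finset.equivFinOfCardEq hX'c).symm.toEmbedding.trans (Function.Embedding.subtype _)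
  have heX : ∀ s : Finset (Fin n), s.map e ⊆ X := by
    intro s z hz
    rw [mem_map] at hz
    obtain ⟨i, _, rfl⟩ := hz
    exact hX' ((Finset.equivFinOfCardEq hX'c).symm i).2
  have hint : ∀ s : Finset (Fin n), (s.map e ∪ Z (jj (s.map e))) ∩ X = s.map e := by
    intro s
    rw [Finset.union_inter_distrib_right]
    have : Z (jj (s.map e)) ∩ X = ∅ := by
      rw [← Finset.disjoint_iff_inter_eq_empty]
      exact (Finset.disjoint_of_subset_right (hZY _) hXY).symm
    rw [this, Finset.union_empty]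
    exact Finset.inter_eq_left.2 (heX s)
  have hle : ∀ s t : Finset (Fin n),
      s.map e ∪ Z (jj (s.map e)) ⊆ t.map e ∪ Z (jj (t.map e)) ↔ s ⊆ t := by
    intro s t
    constructor
    · intro h
      have h2 := Finset.inter_subset_inter_right (u := X) h
      rw [hint, hint] at h2
      exact Finset.map_subset_map.1 h2
    · intro h
      have h2 : s.map e ⊆ t.map e := Finset.map_subset_map.2 h
      exact Finset.union_subset_union h2 (hZ (hjm _ _ h2))
  refine ⟨⟨⟨fun s => s.map e ∪ Z (jj (s.map e)), ?_⟩, ?_⟩, ?_⟩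
  · intro s t hst
    exact subset_antisymm ((hle s t).1 (by rw [show s.map e ∪ Z (jj (s.map e)) =
      t.map e ∪ Z (jj (t.map e)) from hst])) ((hle t s).1 (by rw [show s.map e ∪ Z (jj (s.map e)) =
      t.map e ∪ Z (jj (t.map e)) from hst]))
  · intro s t
    exact hle s t
  · intro s
    exact hred2 _ (heX s)

end Pool.Agent.H23.PRam
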