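import Pool.Agent.H23.PRam.Elim
import Pool.Agent.H23.PRam.ChainLemma

/-!
# Block counting
-/

set_option autoImplicit false

namespace Pool.Agent.H23.PRam

open Finset

theorem block_count (n k s r Λ : ℕ) (c : Finset (Fin (n + s * k)) → Bool)
    (hred : ¬ ∃ g : Finset (Fin n) ↪o Finset (Fin (n + s * k)), ∀ t, c (g t) = false)
    (P : Finset (Fin (n + s * k)) → Finset (Fin (n + s * k)) → Prop)
    (hΛ : ∀ A D, c A = true → c D = true → ¬ P A D →
      (Chains (fun _ : Fin (r + 1) => (Finset.univ : Finset (Finset (Fin (n + s * k)))).filter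
        (fun t => c t = true ∧ A ⊆ t ∧ t ⊆ D))).card ≤ Λ) :
    (∃ D : ℕ → Finset (Fin (n + s * k)), (∀ a ≤ s, c (D a) = true) ∧
      ∀ a < s, D a ⊆ D (a + 1) ∧ P (D a) (D (a + 1))) ∨
    (r + 2) ^ k ≤ s * 4 ^ (n + s * k) * Λ := by
  classical
  set X : Finset (Fin (n + s * k)) := (Finset.univ : Finset (Fin n)).map (Fin.castAddEmb (s * k))
    with hXdef
  let emb : Fin s × Fin k ↪ Fin (n + s * k) :=
    finProdFinEquiv.toEmbedding.trans (Fin.natAddEmb n)
  set Y : Finset (Fin (n + s * k)) := (Finset.univ : Finset (Fin s × Fin k)).map emb with hYdef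
  have hXY : Disjoint X Y := by
    rw [Finset.disjoint_left]
    intro z hz hz'
    rw [hXdef, mem_map] at hz
    rw [hYdef, mem_map] at hz'
    obtain ⟨i, _, rfl⟩ := hz
    obtain ⟨j, _, hj⟩ := hz'
    have := congrArg Fin.val hj
    simp [emb] at this
    omega
  have hXc : n ≤ X.card := by simp [hXdef]
  -- the trace sequences
  let Z : (Fin s → Fin k → Fin (r + 2)) → ℕ → Finset (Fin (n + s * k)) := fun p i =>
    ((Finset.univ : Finset (Fin s × Fin k)).filter
      (fun y => (y.1 : ℕ) * (r + 2) + (p y.1 y.2 : ℕ) < i)).map emb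
  have hZm : ∀ p, Monotone (Z p) := by
    intro p i i' hii
    refine Finset.map_subset_map.2 ?_
    intro y hy
    rw [mem_filter] at hy ⊢
    exact ⟨hy.1, lt_of_lt_of_le hy.2 hii⟩
  have hZY : ∀ p i, Z p i ⊆ Y := fun p i => Finset.map_subset_map.2 (Finset.filter_subset _ _)
  have hch : ∀ p, ∃ B : ℕ → Finset (Fin (n + s * k)),
      (∀ i i', i ≤ i' → i' ≤ s * (r + 2) → B i ⊆ B i') ∧
      ∀ i ≤ s * (r + 2), c (B i) = true ∧ B i ∩ Y = Z p i ∧ B i ⊆ X ∪ Y := fun p =>
    exists_blue_chain c n (s * (r + 2)) X Y hXY hXc hred (Z p) (hZm p) (hZY p)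
  choose B hB1 hB2 using hch
  by_cases hgood : ∃ p, ∀ a < s, P (B p (a * (r + 2))) (B p ((a + 1) * (r + 2)))
  · left
    obtain ⟨p, hp⟩ := hgood
    refine ⟨fun a => B p (a * (r + 2)), fun a ha => (hB2 p _ (Nat.mul_le_mul_right _ ha)).1,
      fun a ha => ⟨hB1 p _ _ (Nat.mul_le_mul_right _ (Nat.le_succ a)) (Nat.mul_le_mul_right _ ha),
        hp a ha⟩⟩
  right
  push Not at hgood
  have hgood' : ∀ p, ∃ a : Fin s, ¬ P (B p (a * (r + 2))) (B p ((a + 1) * (r + 2))) := fun p => by
    obtain ⟨a, ha, hPa⟩ := hgood p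
    exact ⟨⟨a, ha⟩, hPa⟩
  choose bad hbad using hgood'
  have hs : 0 < s := by
    have := (bad (fun _ _ => 0)).2
    omega
  -- for a fixed bad block
  have hfix : ∀ a : Fin s, ((Finset.univ : Finset (Fin s → Fin k → Fin (r + 2))).filter
      (fun p => bad p = a)).card ≤ Λ * (((r + 2) ^ k) ^ (s - 1) * 4 ^ (n + s * k)) := by
    intro a
    let f : (Fin s → Fin k → Fin (r + 2)) →
      ({b : Fin s // b ≠ a} → Fin k → Fin (r + 2)) ×
        (Finset (Fin (n + s * k)) × Finset (Fin (n + s * k))) := fun p =>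
      (fun b => p b, (B p (a * (r + 2)), B p ((a + 1) * (r + 2))))
    have hcardT : (Finset.univ : Finset (({b : Fin s // b ≠ a} → Fin k → Fin (r + 2)) ×
        (Finset (Fin (n + s * k)) × Finset (Fin (n + s * k))))).card =
        ((r + 2) ^ k) ^ (s - 1) * 4 ^ (n + s * k) := by
      have h1 : Fintype.card {b : Fin s // b ≠ a} = s - 1 := by
        rw [Fintype.card_subtype_compl, Fintype.card_fin]
        simp
      rw [Finset.card_univ, Fintype.card_prod, Fintype.card_prod, Fintype.card_finset,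
        Fintype.card_fin, Fintype.card_fun, Fintype.card_fun, h1, Fintype.card_fin,
        Fintype.card_fin, ← mul_pow]
      norm_num
    refine (Finset.card_le_mul_card_image (f := f) _ Λ ?_).trans
      (Nat.mul_le_mul_left _ ((Finset.card_le_univ _).trans (le_of_eq hcardT)))
    rintro ⟨q, A, D⟩ hq
    rw [mem_image] at hq
    obtain ⟨p0, hp0, hfp0⟩ := hq
    have hp0' := (mem_filter.1 hp0).2
    simp only [f, Prod.mk.injEq] at hfp0
    have hle1 : ((a : ℕ) + 1) * (r + 2) ≤ s * (r + 2) := Nat.mul_le_mul_right _ a.2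
    have hle0 : (a : ℕ) * (r + 2) ≤ s * (r + 2) := Nat.mul_le_mul_right _ a.2.le
    have hA : c A = true := by rw [← hfp0.2.1]; exact (hB2 p0 _ hle0).1
    have hD : c D = true := by rw [← hfp0.2.2]; exact (hB2 p0 _ hle1).1
    have hP : ¬ P A D := by
      rw [← hfp0.2.1, ← hfp0.2.2, ← hp0']
      exact hbad p0
    refine le_trans ?_ (hΛ A D hA hD hP)
    refine Finset.card_le_card_of_injOn
      (fun p (i : Fin (r + 1)) => B p (a * (r + 2) + 1 + i)) ?_ ?_
    · intro p hp
      rw [mem_coe, mem_filter] at hp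
      have hp2 := hp.2
      simp only [f, Prod.mk.injEq] at hp2
      have e1 : ((a : ℕ) + 1) * (r + 2) = a * (r + 2) + (r + 2) := by ring
      rw [mem_coe, mem_Chains]
      refine ⟨fun i => ?_, fun i i' hii => ?_⟩
      · have hi := i.2
        refine mem_filter.2 ⟨mem_univ _, (hB2 p _ (by omega)).1, ?_, ?_⟩
        · rw [← hp2.2.1]
          exact hB1 p _ _ (by omega) (by omega)
        · rw [← hp2.2.2]
          exact hB1 p _ _ (by omega) (by omega)
      · have hi := i'.2
        have : (i : ℕ) ≤ i' := hii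
        exact hB1 p _ _ (by omega) (by omega)
    · intro p hp p' hp' hpp
      rw [mem_coe, mem_filter] at hp hp'
      have hp2 := hp.2
      have hp2' := hp'.2
      simp only [f, Prod.mk.injEq] at hp2 hp2'
      funext b y
      by_cases hb : b = a
      · subst hb
        have key : ∀ i : ℕ, i ≤ r → ((p b y : ℕ) < i + 1 ↔ (p' b y : ℕ) < i + 1) := by
          intro i hi
          have e1 : ((b : ℕ) + 1) * (r + 2) = b * (r + 2) + (r + 2) := by ring
          have h1 : B p (b * (r + 2) + 1 + i) = B p' (b * (r + 2) + 1 + i) :=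
            congrFun hpp ⟨i, by omega⟩
          have h2 : Z p (b * (r + 2) + 1 + i) = Z p' (b * (r + 2) + 1 + i) := by
            rw [← (hB2 p _ (by omega)).2.1, ← (hB2 p' _ (by omega)).2.1, h1]
          have h3 := congrArg (fun t => emb (b, y) ∈ t) h2
          simp only [Z, Finset.mem_map', mem_filter, mem_univ, true_and] at h3
          have h4 := iff_of_eq h3
          constructor
          · intro h5
            have := h4.1 (by omega)
            omega
          · intro h5
            have := h4.2 (by omega)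
            omega
        apply Fin.ext
        have hpb := (p b y).2
        have hpb' := (p' b y).2
        rcases lt_trichotomy (p b y : ℕ) (p' b y : ℕ) with h | h | h
        · have := (key (p b y) (by omega)).1 (Nat.lt_succ_self _)
          omega
        · exact h
        · have := (key (p' b y) (by omega)).2 (Nat.lt_succ_self _)
          omega
      · have h1 := congrFun hp2.1 ⟨b, hb⟩
        have h2 := congrFun hp2'.1 ⟨b, hb⟩
        simp only at h1 h2
        rw [h1, ← h2]
  have htot : ((r + 2) ^ k) ^ s ≤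
      s * (Λ * (((r + 2) ^ k) ^ (s - 1) * 4 ^ (n + s * k))) := by
    have h1 : (Finset.univ : Finset (Fin s → Fin k → Fin (r + 2))).card = ((r + 2) ^ k) ^ s := by
      rw [Finset.card_univ, Fintype.card_pi_const, Fintype.card_pi_const, Fintype.card_fin]
    rw [← h1, Finset.card_eq_sum_card_fiberwise (f := bad) (t := (Finset.univ : Finset (Fin s)))
      (fun _ _ => by simp)]
    refine (Finset.sum_le_card_nsmul _ _ _ (fun a _ => hfix a)).trans (le_of_eq ?_)
    rw [Finset.card_univ, Fintype.card_fin, smul_eq_mul]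
  obtain ⟨s', rfl⟩ : ∃ s', s = s' + 1 := ⟨s - 1, by omega⟩
  rw [Nat.add_sub_cancel] at htot
  have hpos : 0 < ((r + 2) ^ k) ^ s' := by positivity
  refine Nat.le_of_mul_le_mul_left ?_ hpos
  calc ((r + 2) ^ k) ^ s' * (r + 2) ^ k = ((r + 2) ^ k) ^ (s' + 1) := by rw [pow_succ]
    _ ≤ _ := htot
    _ = _ := by ring

end Pool.Agent.H23.PRam
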