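import Pool.Agent.H23.PRam.Elim
import Pool.Agent.H23.PRam.ChainLemma

/-!
# From the chain count to the Ramsey statement
-/

set_option autoImplicit false

namespace Pool.Agent.H23.PRam

open Finset

/-- A blue standard example of size `m` with a bottom `A` and a top `D`. -/
def BlueSE {α : Type*} [DecidableEq α] (c : Finset α → Bool) (m : ℕ) : Prop :=
  ∃ (A D : Finset α) (a b : Fin m → Finset α), c A = true ∧ c D = true ∧
    (∀ k, c (a k) = true ∧ A ⊆ a k ∧ a k ⊆ D) ∧ (∀ k, c (b k) = true ∧ A ⊆ b k ∧ b k ⊆ D) ∧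
    ∀ k l, a k ⊆ b l ↔ k ≠ l

theorem count_or_blueSE (n k r m : ℕ) (c : Finset (Fin (n + k)) → Bool)
    (hred : ¬ ∃ g : Finset (Fin n) ↪o Finset (Fin (n + k)), ∀ s, c (g s) = false)
    (hblue : ¬ BlueSE c (m + 1)) :
    (r + 2) ^ k ≤ 8 ^ (n + k) * (n + k + 1) ^ (m * r) := by
  classical
  set X : Finset (Fin (n + k)) := (Finset.univ : Finset (Fin n)).map (Fin.castAddEmb k) with hXdef
  set Y : Finset (Fin (n + k)) := (Finset.univ : Finset (Fin k)).map (Fin.natAddEmb n) with hYdef
  have hXY : Disjoint X Y := by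
    rw [Finset.disjoint_left]
    intro z hz hz'
    rw [hXdef, mem_map] at hz
    rw [hYdef, mem_map] at hz'
    obtain ⟨i, _, rfl⟩ := hz
    obtain ⟨j, _, hj⟩ := hz'
    have := congrArg Fin.val hj
    simp at this
    omega
  have hXc : n ≤ X.card := by simp [hXdef]
  -- the trace sequences
  let Z : (Fin k → Fin (r + 2)) → ℕ → Finset (Fin (n + k)) := fun p i =>
    ((Finset.univ : Finset (Fin k)).filter (fun y => (p y : ℕ) < i)).map (Fin.natAddEmb n)
  have hZm : ∀ p, Monotone (Z p) := by
    intro p i i' hii
    refine Finset.map_subset_map.2 ?_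
    intro y hy
    rw [mem_filter] at hy ⊢
    exact ⟨hy.1, lt_of_lt_of_le hy.2 hii⟩
  have hZY : ∀ p i, Z p i ⊆ Y := fun p i => Finset.map_subset_map.2 (Finset.filter_subset _ _)
  have hch : ∀ p, ∃ B : ℕ → Finset (Fin (n + k)), (∀ i i', i ≤ i' → i' ≤ r + 2 → B i ⊆ B i') ∧
      ∀ i ≤ r + 2, c (B i) = true ∧ B i ∩ Y = Z p i ∧ B i ⊆ X ∪ Y := fun p =>
    exists_blue_chain c n (r + 2) X Y hXY hXc hred (Z p) (hZm p) (hZY p)
  choose B hB1 hB2 using hch
  -- the middle part of the chain
  let mid : (Fin k → Fin (r + 2)) → (Fin (r + 1) → Finset (Fin (n + k))) := fun p i => B p (i + 1)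
  have hmid : Function.Injective mid := by
    intro p q hpq
    funext y
    have key : ∀ i : ℕ, i ≤ r → ((p y : ℕ) < i + 1 ↔ (q y : ℕ) < i + 1) := by
      intro i hi
      have h1 : B p (i + 1) = B q (i + 1) := congrFun hpq ⟨i, by omega⟩
      have h2 : Z p (i + 1) = Z q (i + 1) := by
        rw [← (hB2 p (i + 1) (by omega)).2.1, ← (hB2 q (i + 1) (by omega)).2.1, h1]
      have h3 := congrArg (fun s => (Fin.natAddEmb n) y ∈ s) h2
      simp only [Z, Finset.mem_map', mem_filter, mem_univ, true_and] at h3
      exact iff_of_eq h3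
    apply Fin.ext
    have hp := (p y).2
    have hq := (q y).2
    rcases lt_trichotomy (p y : ℕ) (q y : ℕ) with h | h | h
    · have := (key (p y) (by omega)).1 (Nat.lt_succ_self _)
      omega
    · exact h
    · have := (key (q y) (by omega)).2 (Nat.lt_succ_self _)
      omega
  -- counting
  let G : Finset (Fin (n + k)) × Finset (Fin (n + k)) → Fin (r + 1) →
      Finset (Finset (Fin (n + k))) := fun AD _ =>
    (Finset.univ : Finset (Finset (Fin (n + k)))).filter (fun s => c s = true ∧ AD.1 ⊆ s ∧ s ⊆ AD.2)
  have hbound : ∀ AD : Finset (Fin (n + k)) × Finset (Fin (n + k)), c AD.1 = true →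
      c AD.2 = true → (Chains (G AD)).card ≤ 2 ^ (n + k) * (n + k + 1) ^ (m * r) := by
    intro AD hA hD
    have h := card_chains_le (Finset.univ : Finset (Fin (n + k))) (G AD)
      (fun i u _ => Finset.subset_univ u) (fun _ => m) (by
        intro j hSE
        apply hblue
        obtain ⟨M, hM, hm, a, b, ha, hb, hab, hnab, haM, hMb⟩ := hSE
        refine ⟨AD.1, AD.2, a, b, hA, hD, ?_, ?_, ?_⟩
        · intro k'
          obtain ⟨i, _, hi⟩ := ha k'
          exact (mem_filter.1 hi).2
        · intro k'
          obtain ⟨i, _, hi⟩ := hb k'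
          exact (mem_filter.1 hi).2
        · intro k' l
          constructor
          · rintro h rfl
            exact hnab _ h
          · exact hab k' l)
    simpa [mul_comm] using h
  have hcard : (Finset.univ : Finset (Fin k → Fin (r + 2))).card = (r + 2) ^ k := by
    simp
  rw [← hcard]
  -- fibres of `p ↦ (B p 0, B p (r + 2))`
  have hfib := Finset.card_eq_sum_card_fiberwise (s := (Finset.univ : Finset (Fin k → Fin (r + 2))))
    (f := fun p => (B p 0, B p (r + 2)))
    (t := (Finset.univ : Finset (Finset (Fin (n + k)) × Finset (Fin (n + k)))))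
    (fun _ _ => by simp)
  rw [hfib]
  calc ∑ AD : Finset (Fin (n + k)) × Finset (Fin (n + k)),
        ((Finset.univ : Finset (Fin k → Fin (r + 2))).filter
          (fun p => (B p 0, B p (r + 2)) = AD)).card
      ≤ ∑ AD : Finset (Fin (n + k)) × Finset (Fin (n + k)),
          2 ^ (n + k) * (n + k + 1) ^ (m * r) := by
        refine Finset.sum_le_sum (fun AD _ => ?_)
        by_cases hne : ((Finset.univ : Finset (Fin k → Fin (r + 2))).filter
          (fun p => (B p 0, B p (r + 2)) = AD)).Nonempty
        · obtain ⟨p0, hp0⟩ := hne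
          have hp0' := (mem_filter.1 hp0).2
          have hA : c AD.1 = true := by
            rw [← hp0']
            exact (hB2 p0 0 (by omega)).1
          have hD : c AD.2 = true := by
            rw [← hp0']
            exact (hB2 p0 (r + 2) le_rfl).1
          refine le_trans ?_ (hbound AD hA hD)
          refine Finset.card_le_card_of_injOn mid ?_ (fun p _ q _ h => hmid h)
          intro p hp
          have hp' := (mem_filter.1 hp).2
          rw [Finset.mem_coe, mem_Chains]
          refine ⟨fun i => ?_, fun i i' hii => ?_⟩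
          · have hi : (i : ℕ) + 1 ≤ r + 2 := by omega
            refine mem_filter.2 ⟨mem_univ _, (hB2 p _ hi).1, ?_, ?_⟩
            · rw [← hp']
              exact hB1 p 0 _ (Nat.zero_le _) hi
            · rw [← hp']
              exact hB1 p _ _ hi le_rfl
          · exact hB1 p _ _ (Nat.succ_le_succ hii) (by omega)
        · rw [Finset.not_nonempty_iff_eq_empty] at hne
          rw [hne]
          simp
    _ = 8 ^ (n + k) * (n + k + 1) ^ (m * r) := by
        rw [Finset.sum_const, smul_eq_mul, Finset.card_univ, Fintype.card_prod, Fintype.card_finset,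
          Fintype.card_fin]
        rw [← mul_assoc]
        congr 1
        rw [show (8 : ℕ) = 2 * 2 * 2 by norm_num, mul_pow, mul_pow]

end Pool.Agent.H23.PRam
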