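import Mathlib

/-!
# Definition used in the statement
-/

set_option autoImplicit false

namespace Pool.Agent.H23.PRam

/-- `R(α, Q_n) ≤ n + O(n / log n)`: there is a constant `C` such that for all large `n` and all
`N ≥ n + C n / log n` every colouring of `Q_N` with the colours `true` (blue) and `false` (red) contains
a blue copy of `α` or a red copy of `Q_n`. -/
def UpperModest (α : Type) [PartialOrder α] : Prop :=
  ∃ C : ℝ, 0 < C ∧ ∀ᶠ n : ℕ in Filter.atTop, ∀ N : ℕ, (n : ℝ) + C * n / Real.log n ≤ N →
    ∀ c : Finset (Fin N) → Bool,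
      (∃ f : α ↪o Finset (Fin N), ∀ x, c (f x) = true) ∨
      (∃ g : Finset (Fin n) ↪o Finset (Fin N), ∀ s, c (g s) = false)

end Pool.Agent.H23.PRam
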