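import Mathlib

/-!
# Counting chains in level families without standard examples

`Chains G` is the set of all chains `M 0 ⊆ M 1 ⊆ … ⊆ M r` with `M i ∈ G i`.  If around no chain and at no
cut there is a standard example of size `b j + 1`, then there are at most `2 ^ |V| * (|V| + 1) ^ (∑ b)`
chains.  Proof: elimination of the elements of the ground set `V` one at a time.
-/

set_option autoImplicit false

namespace Pool.Agent.H23.PRam

open Finset

variable {α : Type*} [DecidableEq α] {r : ℕ}

/-- The chains of a level family. -/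
noncomputable def Chains (G : Fin (r + 1) → Finset (Finset α)) :
    Finset (Fin (r + 1) → Finset α) := by
  classical exact (Fintype.piFinset G).filter Monotone

theorem mem_Chains {G : Fin (r + 1) → Finset (Finset α)} {M : Fin (r + 1) → Finset α} :
    M ∈ Chains G ↔ (∀ i, M i ∈ G i) ∧ Monotone M := by
  classical
  simp [Chains, Fintype.mem_piFinset]

/-- A standard example of size `s` around a chain of `G`, at the cut `j`. -/
def SE (G : Fin (r + 1) → Finset (Finset α)) (j : Fin r) (s : ℕ) : Prop :=
  ∃ M : Fin (r + 1) → Finset α, (∀ i, M i ∈ G i) ∧ Monotone M ∧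
    ∃ a b : Fin s → Finset α, (∀ k, ∃ i ≤ j.castSucc, a k ∈ G i) ∧
      (∀ k, ∃ i ≥ j.succ, b k ∈ G i) ∧
      (∀ k l, k ≠ l → a k ⊆ b l) ∧ (∀ k, ¬ a k ⊆ b k) ∧
      (∀ k, a k ⊆ M j.succ) ∧ (∀ k, M j.castSucc ⊆ b k)

/-- `G'` is a family of traces (after deleting `x`) of members of `G`, with full lifts `l`. -/
structure IsLift (G G' : Fin (r + 1) → Finset (Finset α)) (x : α)
    (l : Fin (r + 1) → Finset α → Finset α) : Prop where
  mem : ∀ i u, u ∈ G' i → l i u ∈ G i
  erase : ∀ i u, u ∈ G' i → (l i u).erase x = u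
  mono : ∀ i i' u v, i ≤ i' → u ∈ G' i → v ∈ G' i' → u ⊆ v → l i u ⊆ l i' v

theorem IsLift.chain {G G' : Fin (r + 1) → Finset (Finset α)} {x : α}
    {l : Fin (r + 1) → Finset α → Finset α} (h : IsLift G G' x l)
    {M : Fin (r + 1) → Finset α} (hM : ∀ i, M i ∈ G' i) (hm : Monotone M) :
    (∀ i, l i (M i) ∈ G i) ∧ Monotone fun i => l i (M i) :=
  ⟨fun i => h.mem i _ (hM i), fun i i' hii => h.mono i i' _ _ hii (hM i) (hM i') (hm hii)⟩

theorem IsLift.not_sub {G G' : Fin (r + 1) → Finset (Finset α)} {x : α}
    {l : Fin (r + 1) → Finset α → Finset α} (h : IsLift G G' x l)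
    {i i' : Fin (r + 1)} {u v : Finset α} (hu : u ∈ G' i) (hv : v ∈ G' i') (huv : ¬ u ⊆ v) :
    ¬ l i u ⊆ l i' v := by
  intro hs
  apply huv
  rw [← h.erase i u hu, ← h.erase i' v hv]
  exact Finset.erase_subset_erase x hs

theorem IsLift.se {G G' : Fin (r + 1) → Finset (Finset α)} {x : α}
    {l : Fin (r + 1) → Finset α → Finset α} (h : IsLift G G' x l) {j : Fin r} {s : ℕ}
    (hs : SE G' j s) : SE G j s := by
  obtain ⟨M, hM, hm, a, b, ha, hb, hab, hnab, haM, hMb⟩ := hs
  choose ia hia hia' using ha
  choose ib hib hib' using hb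
  have hc := h.chain hM hm
  refine ⟨fun i => l i (M i), hc.1, hc.2, fun k => l (ia k) (a k), fun k => l (ib k) (b k),
    fun k => ⟨ia k, hia k, h.mem _ _ (hia' k)⟩, fun k => ⟨ib k, hib k, h.mem _ _ (hib' k)⟩, ?_, ?_,
    ?_, ?_⟩
  · intro k k' hkk
    refine h.mono _ _ _ _ ?_ (hia' k) (hib' k') (hab k k' hkk)
    exact (hia k).trans ((Fin.castSucc_lt_succ (i := j)).le.trans (hib k'))
  · intro k
    exact h.not_sub (hia' k) (hib' k) (hnab k)
  · intro k
    refine h.mono _ _ _ _ ?_ (hia' k) (hM _) (haM k)
    exact (hia k).trans (Fin.castSucc_lt_succ (i := j)).le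
  · intro k
    refine h.mono _ _ _ _ ?_ (hM _) (hib' k) (hMb k)
    exact (Fin.castSucc_lt_succ (i := j)).le.trans (hib k)

/-- members not containing `x` -/
def G0 (G : Fin (r + 1) → Finset (Finset α)) (x : α) (i : Fin (r + 1)) : Finset (Finset α) :=
  (G i).filter (fun u => x ∉ u)

/-- traces of the members containing `x` -/
def G1 (G : Fin (r + 1) → Finset (Finset α)) (x : α) (i : Fin (r + 1)) : Finset (Finset α) :=
  ((G i).filter (fun u => x ∈ u)).image (fun u => u.erase x)

theorem mem_G0 {G : Fin (r + 1) → Finset (Finset α)} {x : α} {i : Fin (r + 1)} {u : Finset α} :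
    u ∈ G0 G x i ↔ u ∈ G i ∧ x ∉ u := by simp [G0]

theorem mem_G1 {G : Fin (r + 1) → Finset (Finset α)} {x : α} {i : Fin (r + 1)} {u : Finset α} :
    u ∈ G1 G x i ↔ insert x u ∈ G i ∧ x ∉ u := by
  simp only [G1, mem_image, mem_filter]
  constructor
  · rintro ⟨v, ⟨hv, hx⟩, rfl⟩
    rw [Finset.insert_erase hx]
    exact ⟨hv, Finset.notMem_erase x v⟩
  · rintro ⟨hu, hx⟩
    exact ⟨insert x u, ⟨hu, Finset.mem_insert_self x u⟩, Finset.erase_insert hx⟩

/-- some trace with `x` at a level `≤ i` is contained in `u` -/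
def Pst (G : Fin (r + 1) → Finset (Finset α)) (x : α) (i : Fin (r + 1)) (u : Finset α) : Prop :=
  ∃ i' ≤ i, ∃ q ∈ G1 G x i', q ⊆ u

/-- some trace without `x` at a level `≥ i` contains `u` -/
def Qst (G : Fin (r + 1) → Finset (Finset α)) (x : α) (i : Fin (r + 1)) (u : Finset α) : Prop :=
  ∃ i' ≥ i, ∃ p ∈ G0 G x i', u ⊆ p

open Classical in
/-- the full family preferring the value `1` -/
noncomputable def W1 (G : Fin (r + 1) → Finset (Finset α)) (x : α) (i : Fin (r + 1)) :
    Finset (Finset α) :=
  G1 G x i ∪ (G0 G x i).filter (fun u => ¬ Pst G x i u)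

open Classical in
/-- the full family preferring the value `0` -/
noncomputable def W0 (G : Fin (r + 1) → Finset (Finset α)) (x : α) (i : Fin (r + 1)) :
    Finset (Finset α) :=
  G0 G x i ∪ (G1 G x i).filter (fun u => ¬ Qst G x i u)

open Classical in
/-- the full family of the cut `j` -/
noncomputable def BB (G : Fin (r + 1) → Finset (Finset α)) (x : α) (j : Fin r)
    (i : Fin (r + 1)) : Finset (Finset α) :=
  if i ≤ j.castSucc then (G0 G x i).filter (fun u => i = j.castSucc → Pst G x i u)
  else (G1 G x i).filter (fun u => i = j.succ → Qst G x i u)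

open Classical in
noncomputable def l1 (G : Fin (r + 1) → Finset (Finset α)) (x : α) (i : Fin (r + 1))
    (u : Finset α) : Finset α := if u ∈ G1 G x i then insert x u else u

open Classical in
noncomputable def l0 (G : Fin (r + 1) → Finset (Finset α)) (x : α) (i : Fin (r + 1))
    (u : Finset α) : Finset α := if u ∈ G0 G x i then u else insert x u

def lB (x : α) (j : Fin r) (i : Fin (r + 1)) (u : Finset α) : Finset α :=
  if i ≤ j.castSucc then u else insert x u

variable {G : Fin (r + 1) → Finset (Finset α)} {x : α}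

theorem isLift_W1 : IsLift G (W1 G x) x (l1 G x) := by
  classical
  refine ⟨?_, ?_, ?_⟩
  · intro i u hu
    rw [W1, mem_union, mem_filter] at hu
    unfold l1
    split_ifs with h
    · exact (mem_G1.1 h).1
    · rcases hu with hu | hu
      · exact absurd hu h
      · exact (mem_G0.1 hu.1).1
  · intro i u hu
    rw [W1, mem_union, mem_filter] at hu
    unfold l1
    split_ifs with h
    · exact Finset.erase_insert (mem_G1.1 h).2
    · rcases hu with hu | hu
      · exact absurd hu h
      · exact Finset.erase_eq_of_notMem (mem_G0.1 hu.1).2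
  · intro i i' u v hii hu hv huv
    rw [W1, mem_union, mem_filter] at hu hv
    unfold l1
    split_ifs with h h' h'
    · exact Finset.insert_subset_insert x huv
    · rcases hv with hv | hv
      · exact absurd hv h'
      · exact absurd ⟨i, hii, u, h, huv⟩ hv.2
    · exact huv.trans (Finset.subset_insert x v)
    · exact huv

theorem isLift_W0 : IsLift G (W0 G x) x (l0 G x) := by
  classical
  refine ⟨?_, ?_, ?_⟩
  · intro i u hu
    rw [W0, mem_union, mem_filter] at hu
    unfold l0
    split_ifs with h
    · exact (mem_G0.1 h).1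
    · rcases hu with hu | hu
      · exact absurd hu h
      · exact (mem_G1.1 hu.1).1
  · intro i u hu
    rw [W0, mem_union, mem_filter] at hu
    unfold l0
    split_ifs with h
    · exact Finset.erase_eq_of_notMem (mem_G0.1 h).2
    · rcases hu with hu | hu
      · exact absurd hu h
      · exact Finset.erase_insert (mem_G1.1 hu.1).2
  · intro i i' u v hii hu hv huv
    rw [W0, mem_union, mem_filter] at hu hv
    unfold l0
    split_ifs with h h' h'
    · exact huv
    · exact huv.trans (Finset.subset_insert x v)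
    · rcases hu with hu | hu
      · exact absurd hu h
      · exact absurd ⟨i', hii, v, h', huv⟩ hu.2
    · exact Finset.insert_subset_insert x huv

theorem isLift_BB (j : Fin r) : IsLift G (BB G x j) x (lB x j) := by
  classical
  refine ⟨?_, ?_, ?_⟩
  · intro i u hu
    unfold BB at hu
    unfold lB
    split_ifs at hu ⊢ with h
    · exact (mem_G0.1 (mem_filter.1 hu).1).1
    · exact (mem_G1.1 (mem_filter.1 hu).1).1
  · intro i u hu
    unfold BB at hu
    unfold lB
    split_ifs at hu ⊢ with h
    · exact Finset.erase_eq_of_notMem (mem_G0.1 (mem_filter.1 hu).1).2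
    · exact Finset.erase_insert (mem_G1.1 (mem_filter.1 hu).1).2
  · intro i i' u v hii hu hv huv
    unfold lB
    split_ifs with h h' h'
    · exact huv
    · exact huv.trans (Finset.subset_insert x v)
    · exact absurd (hii.trans h') h
    · exact Finset.insert_subset_insert x huv

theorem se_BB {j : Fin r} {s : ℕ} (h : SE (BB G x j) j s) : SE G j (s + 1) := by
  classical
  obtain ⟨M, hM, hm, a, b, ha, hb, hab, hnab, haM, hMb⟩ := h
  have hl := isLift_BB (G := G) (x := x) j
  have hc := hl.chain hM hm
  have h1 : ∀ i : Fin (r + 1), i ≤ j.castSucc → ∀ u ∈ BB G x j i, u ∈ G i ∧ x ∉ u ∧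
      (i = j.castSucc → Pst G x i u) := by
    intro i hi u hu
    unfold BB at hu
    rw [if_pos hi, mem_filter, mem_G0] at hu
    exact ⟨hu.1.1, hu.1.2, hu.2⟩
  have h2 : ∀ i : Fin (r + 1), i ≥ j.succ → ∀ u ∈ BB G x j i, insert x u ∈ G i ∧ x ∉ u ∧
      (i = j.succ → Qst G x i u) := by
    intro i hi u hu
    unfold BB at hu
    have hi' : ¬ i ≤ j.castSucc := not_le.2 (lt_of_lt_of_le (Fin.castSucc_lt_succ (i := j)) hi)
    rw [if_neg hi', mem_filter, mem_G1] at hu
    exact ⟨hu.1.1, hu.1.2, hu.2⟩
  obtain ⟨ip, hip, q, hq, hqM⟩ := (h1 _ le_rfl _ (hM j.castSucc)).2.2 rfl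
  obtain ⟨iq, hiq, p, hp, hMp⟩ := (h2 _ le_rfl _ (hM j.succ)).2.2 rfl
  rw [mem_G1] at hq
  rw [mem_G0] at hp
  have hMM : M j.castSucc ⊆ M j.succ := hm (Fin.castSucc_lt_succ (i := j)).le
  have hxMc : x ∉ M j.castSucc := (h1 _ le_rfl _ (hM j.castSucc)).2.1
  have hlc : ∀ u, lB x j j.castSucc u = u := fun u => by simp [lB]
  have hls : ∀ u, lB x j j.succ u = insert x u := fun u => by
    unfold lB
    rw [if_neg (not_le.2 (Fin.castSucc_lt_succ (i := j)))]
  refine ⟨fun i => lB x j i (M i), hc.1, hc.2, Fin.cons (insert x q) a,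
    Fin.cons p (fun k => insert x (b k)), ?_, ?_, ?_, ?_, ?_, ?_⟩
  · intro k
    refine Fin.cases ?_ (fun k => ?_) k
    · exact ⟨ip, hip, by simpa using hq.1⟩
    · obtain ⟨i, hi, hai⟩ := ha k
      exact ⟨i, hi, by simpa using (h1 i hi _ hai).1⟩
  · intro k
    refine Fin.cases ?_ (fun k => ?_) k
    · exact ⟨iq, hiq, by simpa using hp.1⟩
    · obtain ⟨i, hi, hbi⟩ := hb k
      exact ⟨i, hi, by simpa using (h2 i hi _ hbi).1⟩
  · intro k l
    refine Fin.cases ?_ (fun k => ?_) k <;> refine Fin.cases ?_ (fun l => ?_) l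
    · intro h; exact absurd rfl h
    · intro _
      simp only [Fin.cons_zero, Fin.cons_succ]
      exact Finset.insert_subset_insert x (hqM.trans (hMb l))
    · intro _
      simp only [Fin.cons_zero, Fin.cons_succ]
      exact (haM k).trans hMp
    · intro h
      simp only [Fin.cons_succ]
      have : k ≠ l := fun e => h (by rw [e])
      exact (hab k l this).trans (Finset.subset_insert x _)
  · intro k
    refine Fin.cases ?_ (fun k => ?_) k
    · simp only [Fin.cons_zero]
      intro h
      exact hp.2 (h (Finset.mem_insert_self x q))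
    · simp only [Fin.cons_succ]
      intro h
      obtain ⟨i, hi, hai⟩ := ha k
      have hxa := (h1 i hi _ hai).2.1
      exact hnab k ((Finset.subset_insert_iff_of_notMem hxa).1 h)
  · intro k
    refine Fin.cases ?_ (fun k => ?_) k
    · simp only [Fin.cons_zero, hls]
      exact Finset.insert_subset_insert x (hqM.trans hMM)
    · simp only [Fin.cons_succ, hls]
      exact (haM k).trans (Finset.subset_insert x _)
  · intro k
    refine Fin.cases ?_ (fun k => ?_) k
    · simp only [Fin.cons_zero, hlc]
      exact hMM.trans hMp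
    · simp only [Fin.cons_succ, hlc]
      exact (hMb k).trans (Finset.subset_insert x _)

/-- Every chain is the lift of a chain of `W0`, of `W1` or of some `BB j`. -/
theorem chains_cover :
    Chains G ⊆ ((Chains (W0 G x)).image (fun M i => l0 G x i (M i))) ∪
      ((Chains (W1 G x)).image (fun M i => l1 G x i (M i))) ∪
      (Finset.univ : Finset (Fin r)).biUnion
        (fun j => (Chains (BB G x j)).image (fun M i => lB x j i (M i))) := by
  classical
  intro M hM
  rw [mem_Chains] at hM
  obtain ⟨hM, hm⟩ := hM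
  have hme : Monotone (fun i => (M i).erase x) := fun i i' h => Finset.erase_subset_erase x (hm h)
  -- being in `W0`
  have hW0 : (∀ i, x ∈ M i → ¬ Qst G x i ((M i).erase x)) →
      M ∈ (Chains (W0 G x)).image (fun M i => l0 G x i (M i)) := by
    intro hQ
    rw [mem_image]
    refine ⟨fun i => (M i).erase x, mem_Chains.2 ⟨fun i => ?_, hme⟩, ?_⟩
    · rw [W0, mem_union, mem_filter]
      by_cases hx : x ∈ M i
      · exact Or.inr ⟨mem_G1.2 ⟨by rw [Finset.insert_erase hx]; exact hM i,
          Finset.notMem_erase x _⟩, hQ i hx⟩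
      · refine Or.inl (mem_G0.2 ⟨?_, Finset.notMem_erase x _⟩)
        rw [Finset.erase_eq_of_notMem hx]
        exact hM i
    · funext i
      unfold l0
      beta_reduce
      by_cases hx : x ∈ M i
      · have : (M i).erase x ∉ G0 G x i := fun h => hQ i hx ⟨i, le_rfl, _, h, subset_rfl⟩
        rw [if_neg this, Finset.insert_erase hx]
      · rw [Finset.erase_eq_of_notMem hx, if_pos (mem_G0.2 ⟨hM i, hx⟩)]
  have hW1 : (∀ i, x ∉ M i → ¬ Pst G x i (M i)) →
      M ∈ (Chains (W1 G x)).image (fun M i => l1 G x i (M i)) := by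
    intro hP
    rw [mem_image]
    refine ⟨fun i => (M i).erase x, mem_Chains.2 ⟨fun i => ?_, hme⟩, ?_⟩
    · rw [W1, mem_union, mem_filter]
      by_cases hx : x ∈ M i
      · exact Or.inl (mem_G1.2 ⟨by rw [Finset.insert_erase hx]; exact hM i,
          Finset.notMem_erase x _⟩)
      · rw [Finset.erase_eq_of_notMem hx]
        exact Or.inr ⟨mem_G0.2 ⟨hM i, hx⟩, hP i hx⟩
    · funext i
      unfold l1
      beta_reduce
      by_cases hx : x ∈ M i
      · have : (M i).erase x ∈ G1 G x i := mem_G1.2 ⟨by rw [Finset.insert_erase hx]; exact hM i,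
          Finset.notMem_erase x _⟩
        rw [if_pos this, Finset.insert_erase hx]
      · rw [Finset.erase_eq_of_notMem hx]
        have : M i ∉ G1 G x i := fun h => hP i hx ⟨i, le_rfl, _, h, subset_rfl⟩
        rw [if_neg this]
  by_cases hall0 : ∀ i, x ∉ M i
  · exact mem_union_left _ (mem_union_left _ (hW0 (fun i hi => absurd hi (hall0 i))))
  push Not at hall0
  obtain ⟨i1, hi1⟩ := hall0
  by_cases h0 : x ∈ M 0
  · refine mem_union_left _ (mem_union_right _ (hW1 (fun i hi => absurd (hm (Fin.zero_le i) h0) hi)))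
  -- the entry time of `x`
  obtain ⟨j, hj0, hj1⟩ : ∃ j : Fin r, x ∉ M j.castSucc ∧ x ∈ M j.succ := by
    by_contra hcon
    push Not at hcon
    have : ∀ i : Fin (r + 1), x ∉ M i := by
      intro i
      induction i using Fin.induction with
      | zero => exact h0
      | succ i ih => exact hcon i ih
    exact this i1 hi1
  have hlow : ∀ i, i ≤ j.castSucc → x ∉ M i := fun i hi h => hj0 (hm hi h)
  have hup : ∀ i, j.succ ≤ i → x ∈ M i := fun i hi => hm hi hj1
  have hdich : ∀ i : Fin (r + 1), i ≤ j.castSucc ∨ j.succ ≤ i := by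
    intro i
    rcases le_or_gt i j.castSucc with h | h
    · exact Or.inl h
    · exact Or.inr (Fin.castSucc_lt_iff_succ_le.1 h)
  by_cases hP : Pst G x j.castSucc (M j.castSucc)
  swap
  · refine mem_union_left _ (mem_union_right _ (hW1 (fun i hi hPi => hP ?_)))
    obtain ⟨i', hi', q, hq, hqi⟩ := hPi
    have hij : i ≤ j.castSucc := by
      rcases hdich i with h | h
      · exact h
      · exact absurd (hup i h) hi
    exact ⟨i', hi'.trans hij, q, hq, hqi.trans (hm hij)⟩
  by_cases hQ : Qst G x j.succ ((M j.succ).erase x)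
  swap
  · refine mem_union_left _ (mem_union_left _ (hW0 (fun i hi hQi => hQ ?_)))
    obtain ⟨i', hi', p, hp, hip⟩ := hQi
    have hij : j.succ ≤ i := by
      rcases hdich i with h | h
      · exact absurd hi (hlow i h)
      · exact h
    exact ⟨i', hij.trans hi', p, hp, (Finset.erase_subset_erase x (hm hij)).trans hip⟩
  refine mem_union_right _ ?_
  rw [mem_biUnion]
  refine ⟨j, mem_univ _, ?_⟩
  rw [mem_image]
  refine ⟨fun i => (M i).erase x, mem_Chains.2 ⟨fun i => ?_, hme⟩, ?_⟩
  · unfold BB
    split_ifs with h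
    · rw [Finset.erase_eq_of_notMem (hlow i h), mem_filter]
      refine ⟨mem_G0.2 ⟨hM i, hlow i h⟩, ?_⟩
      rintro rfl
      exact hP
    · have hi : j.succ ≤ i := (hdich i).resolve_left h
      rw [mem_filter]
      refine ⟨mem_G1.2 ⟨by rw [Finset.insert_erase (hup i hi)]; exact hM i,
          Finset.notMem_erase x _⟩, ?_⟩
      rintro rfl
      exact hQ
  · funext i
    unfold lB
    split_ifs with h
    · exact Finset.erase_eq_of_notMem (hlow i h)
    · exact Finset.insert_erase (hup i ((hdich i).resolve_left h))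

theorem card_chains_step (x : α) :
    (Chains G).card ≤ (Chains (W0 G x)).card + (Chains (W1 G x)).card +
      ∑ j : Fin r, (Chains (BB G x j)).card := by
  classical
  refine (Finset.card_le_card (chains_cover (G := G) (x := x))).trans ?_
  refine (Finset.card_union_le _ _).trans ?_
  refine Nat.add_le_add ((Finset.card_union_le _ _).trans
    (Nat.add_le_add Finset.card_image_le Finset.card_image_le)) ?_
  refine Finset.card_biUnion_le.trans ?_
  exact Finset.sum_le_sum (fun j _ => Finset.card_image_le)

theorem pow_bern (a B : ℕ) : a ^ B + B * a ^ (B - 1) ≤ (a + 1) ^ B := by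
  induction B with
  | zero => simp
  | succ B ih =>
    have e : a * (B * a ^ (B - 1)) = B * a ^ B := by
      rcases Nat.eq_zero_or_pos B with rfl | hB
      · simp
      · have : a ^ B = a * a ^ (B - 1) := by
          rw [← pow_succ']
          congr 1
          omega
        rw [this]; ring
    have : (a + 1) ^ (B + 1) = (a + 1) * (a + 1) ^ B := pow_succ' _ _
    rw [this]
    calc a ^ (B + 1) + (B + 1) * a ^ (B + 1 - 1)
        = a * a ^ B + (B * a ^ B) + a ^ B := by
          rw [Nat.add_sub_cancel, pow_succ']; ring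
      _ = a * (a ^ B + B * a ^ (B - 1)) + a ^ B := by rw [mul_add, e]
      _ ≤ a * (a + 1) ^ B + (a + 1) ^ B :=
          Nat.add_le_add (Nat.mul_le_mul le_rfl ih) (Nat.pow_le_pow_left (Nat.le_succ a) B)
      _ = (a + 1) * (a + 1) ^ B := by ring

theorem mem_sub_of_lift {G' : Fin (r + 1) → Finset (Finset α)} {l : Fin (r + 1) → Finset α → Finset α}
    (h : IsLift G G' x l) {V : Finset α} (hx : x ∉ V) (hG : ∀ i, ∀ u ∈ G i, u ⊆ insert x V) :
    ∀ i, ∀ u ∈ G' i, u ⊆ V := by
  intro i u hu
  rw [← h.erase i u hu]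
  have := Finset.erase_subset_erase x (hG i _ (h.mem i u hu))
  rwa [Finset.erase_insert hx] at this

/-- **Theorem A.** -/
theorem card_chains_le (V : Finset α) : ∀ (G : Fin (r + 1) → Finset (Finset α)),
    (∀ i, ∀ u ∈ G i, u ⊆ V) → ∀ b : Fin r → ℕ, (∀ j, ¬ SE G j (b j + 1)) →
    (Chains G).card ≤ 2 ^ V.card * (V.card + 1) ^ (∑ j, b j) := by
  classical
  induction V using Finset.induction_on with
  | empty =>
    intro G hG b _
    have : Chains G ⊆ {fun _ => ∅} := by
      intro M hM
      rw [mem_Chains] at hM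
      rw [mem_singleton]
      funext i
      exact Finset.subset_empty.1 (hG i _ (hM.1 i))
    refine (Finset.card_le_card this).trans ?_
    simp
  | insert x V hx ih =>
    intro G hG b hb
    have hW0 := ih (W0 G x) (mem_sub_of_lift isLift_W0 hx hG) b
      (fun j h => hb j (isLift_W0.se h))
    have hW1 := ih (W1 G x) (mem_sub_of_lift isLift_W1 hx hG) b
      (fun j h => hb j (isLift_W1.se h))
    have hBB : ∀ j, (Chains (BB G x j)).card ≤
        b j * (2 ^ V.card * (V.card + 1) ^ ((∑ j, b j) - 1)) := by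
      intro j
      rcases Nat.eq_zero_or_pos (b j) with h0 | hpos
      · have : Chains (BB G x j) = ∅ := by
          rw [Finset.eq_empty_iff_forall_notMem]
          intro M hM
          rw [mem_Chains] at hM
          apply hb j
          rw [h0]
          apply se_BB
          exact ⟨M, hM.1, hM.2, Fin.elim0, Fin.elim0, fun k => Fin.elim0 k, fun k => Fin.elim0 k,
            fun k => Fin.elim0 k, fun k => Fin.elim0 k, fun k => Fin.elim0 k, fun k => Fin.elim0 k⟩
        rw [this]
        simp
      · have hsum : ∑ j', Function.update b j (b j - 1) j' = (∑ j', b j') - 1 := by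
          rw [Finset.sum_update_of_mem (mem_univ j)]
          rw [← Finset.add_sum_erase _ _ (mem_univ j)]
          rw [Finset.sdiff_singleton_eq_erase]
          omega
        have := ih (BB G x j) (mem_sub_of_lift (isLift_BB j) hx hG)
          (Function.update b j (b j - 1)) (by
            intro j' h
            by_cases hjj : j' = j
            · subst hjj
              rw [Function.update_self] at h
              have h2 := se_BB h
              rw [Nat.sub_add_cancel hpos] at h2
              exact hb j' h2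
            · rw [Function.update_of_ne hjj] at h
              exact hb j' ((isLift_BB j).se h))
        rw [hsum] at this
        exact this.trans (Nat.le_mul_of_pos_left _ hpos)
    refine (card_chains_step (G := G) x).trans ?_
    rw [Finset.card_insert_of_notMem hx]
    set n := V.card
    set B := ∑ j, b j with hB
    calc (Chains (W0 G x)).card + (Chains (W1 G x)).card + ∑ j : Fin r, (Chains (BB G x j)).card
        ≤ 2 ^ n * (n + 1) ^ B + 2 ^ n * (n + 1) ^ B + ∑ j, b j * (2 ^ n * (n + 1) ^ (B - 1)) :=
          Nat.add_le_add (Nat.add_le_add hW0 hW1) (Finset.sum_le_sum (fun j _ => hBB j))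
      _ = 2 ^ (n + 1) * (n + 1) ^ B + 2 ^ n * (B * (n + 1) ^ (B - 1)) := by
          rw [← Finset.sum_mul, ← hB]
          ring
      _ ≤ 2 ^ (n + 1) * (n + 1) ^ B + 2 ^ (n + 1) * (B * (n + 1) ^ (B - 1)) := by
          refine Nat.add_le_add le_rfl (Nat.mul_le_mul ?_ le_rfl)
          exact Nat.pow_le_pow_right (by norm_num) (Nat.le_succ n)
      _ = 2 ^ (n + 1) * ((n + 1) ^ B + B * (n + 1) ^ (B - 1)) := by ring
      _ ≤ 2 ^ (n + 1) * (n + 1 + 1) ^ B := Nat.mul_le_mul le_rfl (pow_bern _ _)

end Pool.Agent.H23.PRam
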