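import Pool.Agent.H23.PRam.Seq

/-!
# Embedding ordinal sums into blue universal structures
-/

set_option autoImplicit false

namespace Pool.Agent.H23.PRam

open Finset

variable {β : Type*} [DecidableEq β]

/-- a blue universal bipartite structure in the interval `[A, D]` -/
def BU (c : Finset β → Bool) (m : ℕ) (A D : Finset β) : Prop :=
  ∃ (E : Fin m → Finset β) (B : Finset (Fin m) → Finset β),
    (∀ k, c (E k) = true ∧ A ⊆ E k ∧ E k ⊆ D) ∧ (∀ S, c (B S) = true ∧ A ⊆ B S ∧ B S ⊆ D) ∧
      ∀ k S, E k ⊆ B S ↔ k ∈ S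

/-- a blue universal structure of height three in the interval `[A, D]` -/
def BX (c : Finset β → Bool) (m : ℕ) (A D : Finset β) : Prop :=
  ∃ (E E' : Fin m → Finset β) (B : Finset (Fin m) → Finset β),
    (∀ k, c (E k) = true ∧ A ⊆ E k ∧ E k ⊆ D) ∧ (∀ k, c (E' k) = true ∧ A ⊆ E' k ∧ E' k ⊆ D) ∧
      (∀ S, c (B S) = true ∧ A ⊆ B S ∧ B S ⊆ D) ∧
      (∀ k S, k ∈ S → E k ⊆ B S) ∧ (∀ k S, k ∉ S → B S ⊆ E' k) ∧ ∀ k, ¬ E k ⊆ E' k

theorem card_le_of_not_BU [Fintype β] (c : Finset β → Bool) (m r : ℕ) (A D : Finset β)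
    (h : ¬ BU c m A D) :
    (Chains (fun _ : Fin (r + 1) => (Finset.univ : Finset (Finset β)).filter
        (fun t => c t = true ∧ A ⊆ t ∧ t ⊆ D))).card ≤
      4 ^ Fintype.card β * (Fintype.card β + 1) ^ (m * r) := by
  have := card_chains_le_UU (Finset.univ : Finset β) (fun _ : Fin (r + 1) =>
    (Finset.univ : Finset (Finset β)).filter (fun t => c t = true ∧ A ⊆ t ∧ t ⊆ D))
    (fun i u _ => Finset.subset_univ u) m (by
      rintro j ⟨E, B, hE, hB, hEB⟩
      apply h
      refine ⟨E, B, fun k => ?_, fun S => ?_, hEB⟩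
      · obtain ⟨i, _, hi⟩ := hE k
        exact (mem_filter.1 hi).2
      · obtain ⟨i, _, hi⟩ := hB S
        exact (mem_filter.1 hi).2)
  rwa [Finset.card_univ] at this

theorem card_le_of_not_BX [Fintype β] (c : Finset β → Bool) (m r : ℕ) (A D : Finset β)
    (h : ¬ BX c m A D) :
    (Chains (fun _ : Fin (r + 1) => (Finset.univ : Finset (Finset β)).filter
        (fun t => c t = true ∧ A ⊆ t ∧ t ⊆ D))).card ≤
      6 ^ Fintype.card β * (Fintype.card β + 1) ^ (m * (r * r)) := by
  have := card_chains_le_XI' m (Finset.univ : Finset β) (fun _ : Fin (r + 1) =>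
    (Finset.univ : Finset (Finset β)).filter (fun t => c t = true ∧ A ⊆ t ∧ t ⊆ D))
    (fun i u _ => Finset.subset_univ u) (by
      rintro ⟨b, E, E', B, hE, hE', hB, h1, h2, h3⟩
      apply h
      refine ⟨E, E', B, fun k => ?_, fun k => ?_, fun S => (mem_filter.1 (hB S)).2, h1, h2, h3⟩
      · obtain ⟨i, _, hi⟩ := hE k
        exact (mem_filter.1 hi).2
      · obtain ⟨i, _, hi⟩ := hE' k
        exact (mem_filter.1 hi).2)
  rwa [Finset.card_univ] at this

variable {α : Type*} [Fintype α] [PartialOrder α]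

omit [DecidableEq β] in
/-- blocks of a chain `D` -/
theorem chain_mono {s : ℕ} {D : ℕ → Finset β} (hD : ∀ a < s, D a ⊆ D (a + 1)) :
    ∀ a b, a ≤ b → b ≤ s → D a ⊆ D b := by
  intro a b hab
  induction b, hab using Nat.le_induction with
  | base => intro _; exact subset_rfl
  | succ b hab ih => intro hb; exact (ih (by omega)).trans (hD b (by omega))

theorem embed_U (c : Finset β → Bool) (ρ : α → ℕ) (hρ : ∀ x y, ρ x < ρ y → x < y)
    (h3 : ∀ x y z : α, x < y → y < z → ρ x < ρ z) (s : ℕ) (hs : ∀ x, ρ x < s)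
    (D : ℕ → Finset β) (hD : ∀ a < s, D a ⊆ D (a + 1) ∧ BU c (Fintype.card α + 1) (D a) (D (a + 1))) :
    ∃ f : α ↪o Finset β, ∀ x, c (f x) = true := by
  classical
  have hB : ∀ a : Fin s, BU c (Fintype.card α + 1) (D a) (D (a + 1)) := fun a => (hD a a.2).2
  choose E B hE hBB hEB using hB
  have hDm := chain_mono (fun a ha => (hD a ha).1)
  let ι : α → Fin (Fintype.card α + 1) := fun x => (Fintype.equivFin α x).castSucc
  have hι : Function.Injective ι := fun x y h =>
    (Fintype.equivFin α).injective (Fin.castSucc_injective _ h)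
  have hz : ∀ x, ι x ≠ Fin.last _ := fun x => (Fin.castSucc_lt_last _).ne
  let ρ' : α → Fin s := fun x => ⟨ρ x, hs x⟩
  let S : α → Finset (Fin (Fintype.card α + 1)) := fun x =>
    ((Finset.univ : Finset α).filter (fun y => y ≤ x ∧ ρ y = ρ x)).image ι
  have hS : ∀ x y, ι y ∈ S x ↔ y ≤ x ∧ ρ y = ρ x := by
    intro x y
    simp only [S, mem_image, mem_filter, mem_univ, true_and]
    constructor
    · rintro ⟨y', h, hy'⟩
      rw [← hι hy']
      exact h
    · intro h
      exact ⟨y, h, rfl⟩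
  have hSz : ∀ x, Fin.last _ ∉ S x := by
    intro x h
    simp only [S, mem_image] at h
    obtain ⟨y, _, hy⟩ := h
    exact hz y hy
  let f : α → Finset β := fun x => if ∃ w, w < x ∧ ρ w = ρ x then B (ρ' x) (S x)
    else E (ρ' x) (ι x)
  have hEE : ∀ (a : Fin s) (k l : Fin (Fintype.card α + 1)), E a k ⊆ E a l → k = l := by
    intro a k l h
    have h1 : E a l ⊆ B a {l} := (hEB a l {l}).2 (mem_singleton_self l)
    exact mem_singleton.1 ((hEB a k {l}).1 (h.trans h1))
  have hfc : ∀ x, c (f x) = true ∧ D (ρ x) ⊆ f x ∧ f x ⊆ D (ρ x + 1) := by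
    intro x
    by_cases hx : ∃ w, w < x ∧ ρ w = ρ x
    · simp only [f, hx, if_true]
      exact hBB (ρ' x) (S x)
    · simp only [f, hx, if_false]
      exact hE (ρ' x) (ι x)
  have hfz : ∀ x, ¬ D (ρ x + 1) ⊆ f x := by
    intro x h
    have h0 : E (ρ' x) (Fin.last _) ⊆ D (ρ x + 1) := (hE (ρ' x) (Fin.last _)).2.2
    have h1 := h0.trans h
    by_cases hx : ∃ w, w < x ∧ ρ w = ρ x
    · simp only [f, hx, if_true] at h1
      exact hSz x ((hEB _ _ _).1 h1)
    · simp only [f, hx, if_false] at h1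
      exact hz x (hEE _ _ _ h1).symm
  have hfle : ∀ x y, f x ⊆ f y ↔ x ≤ y := by
    intro x y
    rcases lt_trichotomy (ρ x) (ρ y) with h | h | h
    · refine ⟨fun _ => (hρ x y h).le, fun _ => ?_⟩
      exact ((hfc x).2.2.trans (hDm _ _ h (hs y).le)).trans (hfc y).2.1
    · have hρ' : ρ' x = ρ' y := Fin.ext h
      by_cases hx : ∃ w, w < x ∧ ρ w = ρ x
      · by_cases hy : ∃ w, w < y ∧ ρ w = ρ y
        · simp only [f, hx, hy, if_true]
          constructor
          · intro hxy
            have h1 : E (ρ' x) (ι x) ⊆ B (ρ' x) (S x) := (hEB _ _ _).2 ((hS x x).2 ⟨le_rfl, rfl⟩)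
            have h2 := h1.trans hxy
            rw [hρ'] at h2
            exact ((hS y x).1 ((hEB _ _ _).1 h2)).1
          · intro hxy
            rcases hxy.lt_or_eq with hlt | heq
            · exfalso
              obtain ⟨w, hw, hwx⟩ := hx
              have := h3 w x y hw hlt
              omega
            · rw [heq]
        · simp only [f, hx, hy, if_true, if_false]
          obtain ⟨w, hw, hwx⟩ := hx
          constructor
          · intro hxy
            exfalso
            have h1 : E (ρ' x) (ι x) ⊆ B (ρ' x) (S x) := (hEB _ _ _).2 ((hS x x).2 ⟨le_rfl, rfl⟩)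
            have h2 : E (ρ' x) (ι w) ⊆ B (ρ' x) (S x) := (hEB _ _ _).2 ((hS x w).2 ⟨hw.le, hwx⟩)
            have h4 := h1.trans hxy
            have h5 := h2.trans hxy
            rw [hρ'] at h4 h5
            have e4 := hι (hEE _ _ _ h4)
            have e5 := hι (hEE _ _ _ h5)
            rw [e4, e5] at hw
            exact lt_irrefl _ hw
          · intro hxy
            exfalso
            rcases hxy.lt_or_eq with hlt | heq
            · exact hy ⟨x, hlt, h⟩
            · exact hy ⟨w, heq ▸ hw, heq ▸ hwx⟩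
      · by_cases hy : ∃ w, w < y ∧ ρ w = ρ y
        · simp only [f, hx, hy, if_true, if_false]
          rw [hρ', hEB, hS]
          exact ⟨fun h' => h'.1, fun h' => ⟨h', h⟩⟩
        · simp only [f, hx, hy, if_false]
          rw [hρ']
          constructor
          · intro hxy
            exact (hι (hEE _ _ _ hxy)).le
          · intro hxy
            rcases hxy.lt_or_eq with hlt | heq
            · exact absurd ⟨x, hlt, h⟩ hy
            · rw [heq]
    · constructor
      · intro hxy
        exfalso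
        apply hfz y
        exact ((hDm _ _ h (hs x).le).trans (hfc x).2.1).trans hxy
      · intro hxy
        exact absurd (hρ y x h) (not_lt_of_ge hxy)
  exact ⟨OrderEmbedding.ofMapLEIff f hfle, fun x => (hfc x).1⟩

theorem embed_X (c : Finset β → Bool) (m k : ℕ) (hk : 2 ≤ k) (hkm : k + 2 ≤ m) (ρ : α → ℕ)
    (φ : α → Finset (Fin m)) (hρ : ∀ x y, ρ x < ρ y → x < y)
    (hφ : ∀ x y, ρ x = ρ y → (x ≤ y ↔ φ x ⊆ φ y))
    (hφc : ∀ x, (φ x).card = 1 ∨ (φ x).card = k ∨ (φ x).card + 1 = m)
    (s : ℕ) (hs : ∀ x, ρ x < s)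
    (D : ℕ → Finset β) (hD : ∀ a < s, D a ⊆ D (a + 1) ∧ BX c m (D a) (D (a + 1))) :
    ∃ f : α ↪o Finset β, ∀ x, c (f x) = true := by
  classical
  have hB : ∀ a : Fin s, BX c m (D a) (D (a + 1)) := fun a => (hD a a.2).2
  choose E E' B hE hE' hBB h1 h2 h3' using hB
  have hDm := chain_mono (fun a ha => (hD a ha).1)
  let ρ' : α → Fin s := fun x => ⟨ρ x, hs x⟩
  -- the admissible images
  let R : Fin s → Finset (Fin m) → Finset β → Prop := fun a T u =>
    (∃ i, T = {i} ∧ u = E a i) ∨ (T.card = k ∧ u = B a T) ∨ (∃ i, T = {i}ᶜ ∧ u = E' a i)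
  have hRex : ∀ x, ∃ u, R (ρ' x) (φ x) u := by
    intro x
    rcases hφc x with h | h | h
    · obtain ⟨i, hi⟩ := Finset.card_eq_one.1 h
      exact ⟨_, Or.inl ⟨i, hi, rfl⟩⟩
    · exact ⟨_, Or.inr (Or.inl ⟨h, rfl⟩)⟩
    · have hc : ((φ x)ᶜ).card = 1 := by
        rw [Finset.card_compl, Fintype.card_fin]; omega
      obtain ⟨i, hi⟩ := Finset.card_eq_one.1 hc
      refine ⟨_, Or.inr (Or.inr ⟨i, ?_, rfl⟩)⟩
      rw [← hi, compl_compl]
  choose f hf using hRex
  have hRE : ∀ a T u, R a T u → ∀ l, E a l ⊆ u ↔ l ∈ T := by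
    intro a T u hR l
    rcases hR with ⟨i, rfl, rfl⟩ | ⟨_, rfl⟩ | ⟨i, rfl, rfl⟩
    · rw [mem_singleton]
      constructor
      · intro h
        by_contra hne
        exact h3' a l (h.trans ((h1 a i {i} (mem_singleton_self i)).trans
          (h2 a l {i} (by rwa [mem_singleton]))))
      · rintro rfl
        exact subset_rfl
    · constructor
      · intro h
        by_contra hne
        exact h3' a l (h.trans (h2 a l T hne))
      · exact h1 a l T
    · rw [mem_compl, mem_singleton]
      constructor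
      · rintro h rfl
        exact h3' a l h
      · intro hne
        exact (h1 a l {l} (mem_singleton_self l)).trans
          (h2 a i {l} (by rw [mem_singleton]; exact fun h => hne h.symm))
  have hRm : ∀ a T u T' u', R a T u → R a T' u' → T ⊆ T' → u ⊆ u' := by
    intro a T u T' u' hR hR' hTT
    have hcard := Finset.card_le_card hTT
    rcases hR with ⟨i, rfl, rfl⟩ | ⟨hT, rfl⟩ | ⟨i, rfl, rfl⟩
    · exact (hRE a T' u' hR' i).2 (Finset.singleton_subset_iff.1 hTT)
    · rcases hR' with ⟨i', rfl, rfl⟩ | ⟨hT', rfl⟩ | ⟨i', rfl, rfl⟩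
      · rw [card_singleton] at hcard
        omega
      · rw [Finset.eq_of_subset_of_card_le hTT (by omega)]
      · refine h2 a i' T (fun hi => ?_)
        have := hTT hi
        rw [mem_compl, mem_singleton] at this
        exact this rfl
    · rw [Finset.card_compl, Fintype.card_fin, card_singleton] at hcard
      rcases hR' with ⟨i', rfl, rfl⟩ | ⟨hT', rfl⟩ | ⟨i', rfl, rfl⟩
      · rw [card_singleton] at hcard
        omega
      · omega
      · have : i = i' := by
          by_contra hne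
          have h5 : i' ∈ ({i} : Finset (Fin m))ᶜ := by
            rw [mem_compl, mem_singleton]; exact fun h => hne h.symm
          have := hTT h5
          rw [mem_compl, mem_singleton] at this
          exact this rfl
        rw [this]
  have hRc : ∀ a T u, R a T u → c u = true ∧ D a ⊆ u ∧ u ⊆ D (a + 1) := by
    intro a T u hR
    rcases hR with ⟨i, rfl, rfl⟩ | ⟨hT, rfl⟩ | ⟨i, rfl, rfl⟩
    · exact hE a i
    · exact hBB a T
    · exact hE' a i
  have hfc : ∀ x, c (f x) = true ∧ D (ρ x) ⊆ f x ∧ f x ⊆ D (ρ x + 1) :=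
    fun x => hRc (ρ' x) (φ x) (f x) (hf x)
  have hfz : ∀ x, ¬ D (ρ x + 1) ⊆ f x := by
    intro x h
    have h0 : ∀ l, l ∈ φ x := fun l =>
      (hRE _ _ _ (hf x) l).1 ((hE (ρ' x) l).2.2.trans h)
    have h4 : φ x = Finset.univ := Finset.eq_univ_of_forall h0
    have h5 := hφc x
    rw [h4, Finset.card_univ, Fintype.card_fin] at h5
    omega
  have hfle : ∀ x y, f x ⊆ f y ↔ x ≤ y := by
    intro x y
    rcases lt_trichotomy (ρ x) (ρ y) with h | h | h
    · refine ⟨fun _ => (hρ x y h).le, fun _ => ?_⟩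
      exact ((hfc x).2.2.trans (hDm _ _ h (hs y).le)).trans (hfc y).2.1
    · have hρ' : ρ' x = ρ' y := Fin.ext h
      rw [hφ x y h]
      have hx := hf x
      rw [hρ'] at hx
      constructor
      · intro hxy l hl
        exact (hRE _ _ _ (hf y) l).1 (((hRE _ _ _ hx l).2 hl).trans hxy)
      · exact hRm _ _ _ _ _ hx (hf y)
    · constructor
      · intro hxy
        exfalso
        apply hfz y
        exact ((hDm _ _ h (hs x).le).trans (hfc x).2.1).trans hxy
      · intro hxy
        exact absurd (hρ y x h) (not_lt_of_ge hxy)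
  exact ⟨OrderEmbedding.ofMapLEIff f hfle, fun x => (hfc x).1⟩

end Pool.Agent.H23.PRam
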