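import Pool.Agent.H23.PRam.Embed
import Pool.Agent.H23.PRam.Block
import Pool.Agent.H23.PRam.Asym2
import Pool.Agent.H23.PRam.Defs

/-!
# The Ramsey statement
-/

set_option autoImplicit false

open Finset Filter
namespace Pool.Agent.H23.PRam

theorem ramsey_layers (α : Type) [Fintype α] [PartialOrder α] (m k : ℕ) (hk : 2 ≤ k)
    (hkm : k + 2 ≤ m) (ρ : α → ℕ) (φ : α → Finset (Fin m)) (hρ : ∀ x y : α, ρ x < ρ y → x < y)
    (hφ : ∀ x y : α, ρ x = ρ y → (x ≤ y ↔ φ x ⊆ φ y))
    (hφc : ∀ x, (φ x).card = 1 ∨ (φ x).card = k ∨ (φ x).card + 1 = m) :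
    UpperModest α := by
  classical
  set s := (Finset.univ.sup ρ) + 1 with hs
  have hsx : ∀ x, ρ x < s := fun x => Nat.lt_succ_of_le (Finset.le_sup (mem_univ x))
  obtain ⟨C, hC⟩ := numeric_E s m (Nat.succ_pos _)
  refine ⟨C + 1, by positivity, ?_⟩
  filter_upwards [hC, eventually_ge_atTop 2] with n hn hn2 N hN c
  obtain ⟨k', r, hk', hcount⟩ := hn
  have hnn : (2 : ℝ) ≤ n := by exact_mod_cast hn2
  have hlog : 0 < Real.log n := Real.log_pos (by linarith)
  have hle : n + s * k' ≤ N := by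
    have h1 : (C : ℝ) * n / Real.log n ≤ (C + 1) * n / Real.log n := by
      gcongr
      linarith
    have : ((n + s * k' : ℕ) : ℝ) ≤ N := by
      push_cast
      linarith
    exact_mod_cast this
  by_contra hcon
  rw [not_or] at hcon
  obtain ⟨hb, hr⟩ := hcon
  rcases block_count n k' s r _ (fun t => c (t.map (Fin.castLEEmb hle)))
    (fun hred => hr (red_mono hle c hred))
    (BX (fun t => c (t.map (Fin.castLEEmb hle))) m)
    (fun A D _ _ h => card_le_of_not_BX _ _ r A D h) with h | h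
  · obtain ⟨D, _, hD⟩ := h
    obtain ⟨f, hf⟩ := embed_X _ m k hk hkm ρ φ hρ hφ hφc s hsx D hD
    exact hb ⟨f.trans (Finset.mapEmbedding (Fin.castLEEmb hle)), fun x => hf x⟩
  · rw [Fintype.card_fin] at h
    exact absurd hcount (not_lt.2 h)

theorem ramsey_Q4 : UpperModest (Finset (Fin 4)) := by
  refine ramsey_layers (Finset (Fin 4)) 4 2 le_rfl le_rfl
    (fun t => if t.card = 0 then 0 else if t.card = 4 then 2 else 1)
    (fun t => if t.card = 0 then {0} else if t.card = 4 then {0} else t) ?_ ?_ ?_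
  · decide
  · decide
  · decide

end Pool.Agent.H23.PRam
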