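import Pool.Agent.H23.PRam.Base

/-!
# Chains all of whose coordinates are active, II

In a family without universal structure `XI` the chains all of whose coordinates are active are determined,
up to few choices, by their first and last member.
-/

set_option autoImplicit false

namespace Pool.Agent.H23.PRam

open Finset

variable {α : Type*} [DecidableEq α] {r : ℕ}

open Classical in
/-- Key lemma.  `𝒢` is a set of good chains with the same member `A` at level `i`, and `C` separates the
members at level `i + 1` from the members at level `k`.  Then there are few members at level `i + 1`. -/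
theorem stage {F0 F : Fin (r + 1) → Finset (Finset α)} {L : Fin (r + 1) → Finset α → Finset α}
    {K : Finset α} (h : IsFull F0 F K L) {m : ℕ} (hX : ¬ XI F0 m) (i : Fin r) (A : Finset α) :
    ∀ (d : ℕ) (𝒢 : Finset (Fin (r + 1) → Finset α)) (C : Finset α) (k : Fin (r + 1)),
      (k : ℕ) = i + 1 + d → 𝒢 ⊆ GChains F0 F L K → (∀ M ∈ 𝒢, M i.castSucc = A) →
      (∀ M ∈ 𝒢, M i.succ ⊆ C) → (∀ M ∈ 𝒢, C ⊆ M k) →
      (𝒢.image (fun M => M i.succ)).card ≤ ((K.card + 1) ^ m) ^ d := by
  intro d
  induction d with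
  | zero =>
    intro 𝒢 C k hk hG hA hC1 hC2
    have hk' : k = i.succ := Fin.ext (by simpa using hk)
    subst hk'
    rw [pow_zero, Finset.card_le_one]
    intro a ha b hb
    rw [mem_image] at ha hb
    obtain ⟨M, hM, rfl⟩ := ha
    obtain ⟨M', hM', rfl⟩ := hb
    exact ((hC1 M hM).trans (hC2 M' hM')).antisymm ((hC1 M' hM').trans (hC2 M hM))
  | succ d ih =>
    intro 𝒢 C k hk hG hA hC1 hC2
    have hkr : (k : ℕ) < r + 1 := k.2
    have hk1 : (k : ℕ) = i + 1 + (d + 1) := hk
    -- the previous level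
    let k' : Fin r := ⟨i + 1 + d, by omega⟩
    have hk'1 : k'.succ = k := Fin.ext (by simp [k']; omega)
    have hlt : i.succ ≤ k'.castSucc := by
      rw [Fin.le_def]; simp [k']
    have hi1 : i.castSucc ≤ i.succ := (Fin.castSucc_lt_succ (i := i)).le
    have hg : ∀ M ∈ 𝒢, ((∀ j, M j ∈ F j) ∧ Monotone M) ∧ Good F0 F L K M := fun M hM =>
      mem_GChains.1 (hG hM)
    let X : Finset α := K.filter (fun x => x ∈ C ∧ x ∉ A ∧ PAct F0 F L i.castSucc A x ∧
      ∃ M ∈ 𝒢, QAct F0 F L k (M k) x)
    let R : Finset α := K.filter (fun x => x ∈ C ∧ x ∉ A ∧ PAct F0 F L i.castSucc A x ∧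
      ¬ ∃ M ∈ 𝒢, QAct F0 F L k (M k) x)
    -- the traces on `X`
    let 𝒯 : Finset (Finset α) := (𝒢.image (fun M => M i.succ)).image (fun v => v ∩ X)
    have hT : 𝒯.card ≤ (K.card + 1) ^ m := by
      refine (card_traces_le _ X m ?_).trans
        (Nat.pow_le_pow_left (Nat.add_le_add_right (card_le_card (filter_subset _ _)) 1) m)
      rintro ⟨x, hx, hS⟩
      apply hX
      have hx' : ∀ l, x l ∈ K ∧ x l ∈ C ∧ x l ∉ A ∧ PAct F0 F L i.castSucc A (x l) ∧
        ∃ M ∈ 𝒢, QAct F0 F L k (M k) (x l) := fun l => mem_filter.1 (hx l)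
      choose v hv hvS using hS
      have hv' : ∀ S, ∃ M ∈ 𝒢, M i.succ = v S := fun S => mem_image.1 (hv S)
      choose MS hMS hMSv using hv'
      choose iE hiE E hE hxE hEL using fun l => (hx' l).2.2.2.1
      choose N hN hNQ using fun l => (hx' l).2.2.2.2
      choose iE' hiE' E' hE' hxE' hEL' using hNQ
      have hvF : ∀ S, v S ∈ F i.succ := fun S => by
        rw [← hMSv S]; exact (hg _ (hMS S)).1.1 _
      have hAv : ∀ S, A ⊆ v S := fun S => by
        rw [← hMSv S, ← hA _ (hMS S)]; exact (hg _ (hMS S)).1.2 hi1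
      have hik : i.succ ≤ k := by
        rw [Fin.le_def, Fin.val_succ]; omega
      refine ⟨i.succ, E, E', fun S => L i.succ (v S), fun l => ⟨iE l, (hiE l).trans hi1, hE l⟩,
        fun l => ⟨iE' l, hik.trans (hiE' l), hE' l⟩, fun S => h.mem _ _ (hvF S), ?_, ?_, ?_⟩
      · intro l S hl
        exact hEL l i.succ hi1 (v S) (hvF S) (hAv S) ((hvS S l).2 hl)
      · intro l S hl
        refine hEL' l i.succ hik (v S) (hvF S) ?_ (fun hc => hl ((hvS S l).1 hc))
        rw [← hMSv S]
        exact (hC1 _ (hMS S)).trans (hC2 _ (hN l))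
      · intro l hsub
        exact hxE' l (hsub (hxE l))
    -- partition according to the trace
    have hcover : 𝒢.image (fun M => M i.succ) ⊆ 𝒯.biUnion (fun t =>
        (𝒢.filter (fun M => M i.succ ∩ X = t)).image (fun M => M i.succ)) := by
      intro u hu
      rw [mem_image] at hu
      obtain ⟨M, hM, rfl⟩ := hu
      rw [mem_biUnion]
      refine ⟨M i.succ ∩ X, mem_image.2 ⟨_, mem_image.2 ⟨M, hM, rfl⟩, rfl⟩, ?_⟩
      exact mem_image.2 ⟨M, mem_filter.2 ⟨hM, rfl⟩, rfl⟩
    refine (card_le_card hcover).trans (card_biUnion_le.trans ?_)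
    rw [pow_succ']
    refine (Finset.sum_le_card_nsmul _ _ (((K.card + 1) ^ m) ^ d) ?_).trans
      (by rw [smul_eq_mul]; exact Nat.mul_le_mul_right _ hT)
    intro t ht
    refine ih _ (A ∪ t ∪ R) k'.castSucc (by simp [k']) ((filter_subset _ _).trans hG)
      (fun M hM => hA M (mem_filter.1 hM).1) ?_ ?_
    · intro M hM x hx
      obtain ⟨hM1, hM2⟩ := mem_filter.1 hM
      by_cases hxA : x ∈ A
      · exact mem_union_left _ (mem_union_left _ hxA)
      have hxK : x ∈ K := h.sub _ _ ((hg M hM1).1.1 _) hx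
      have hxC : x ∈ C := hC1 M hM1 hx
      have hxP : PAct F0 F L i.castSucc A x := by
        have := ((hg M hM1).2 i x hxK (by rw [hA M hM1]; exact hxA) hx).1
        rwa [hA M hM1] at this
      by_cases hxQ : ∃ M ∈ 𝒢, QAct F0 F L k (M k) x
      · refine mem_union_left _ (mem_union_right _ ?_)
        rw [← hM2]
        exact mem_inter.2 ⟨hx, mem_filter.2 ⟨hxK, hxC, hxA, hxP, hxQ⟩⟩
      · exact mem_union_right _ (mem_filter.2 ⟨hxK, hxC, hxA, hxP, hxQ⟩)
    · intro M hM x hx
      obtain ⟨hM1, hM2⟩ := mem_filter.1 hM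
      rw [mem_union, mem_union] at hx
      rcases hx with (hx | hx) | hx
      · rw [← hA M hM1] at hx
        exact (hg M hM1).1.2 (hi1.trans hlt) hx
      · rw [← hM2] at hx
        exact (hg M hM1).1.2 hlt (mem_inter.1 hx).1
      · obtain ⟨hxK, hxC, hxA, hxP, hxQ⟩ := mem_filter.1 hx
        by_contra hxM
        apply hxQ
        refine ⟨M, hM1, ?_⟩
        have := ((hg M hM1).2 k' x hxK hxM (by rw [hk'1]; exact hC2 M hM1 hxC)).2
        rwa [hk'1] at this

open Classical in
theorem base_X (F0 : Fin (r + 1) → Finset (Finset α)) (m : ℕ) (hX : ¬ XI F0 m)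
    (K : Finset α) (F : Fin (r + 1) → Finset (Finset α)) (L : Fin (r + 1) → Finset α → Finset α)
    (h : IsFull F0 F K L) :
    (GChains F0 F L K).card ≤ 4 ^ K.card * ((K.card + 1) ^ m) ^ (r * r) := by
  -- chains with last member `D`
  let 𝒢 : Finset α → Finset (Fin (r + 1) → Finset α) := fun D =>
    (GChains F0 F L K).filter (fun M => M (Fin.last r) = D)
  have hD : ∀ D, (𝒢 D).card ≤ 2 ^ K.card * ((K.card + 1) ^ m) ^ (r * r) := by
    intro D
    rw [← Finset.card_powerset K, pow_mul _ r r]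
    refine card_seq_le (𝒢 D) K.powerset
      (fun j A => ((𝒢 D).filter (fun M => M j.castSucc = A)).image (fun M => M j.succ)) _ ?_ ?_ ?_
    · intro M hM
      have := mem_GChains.1 (mem_filter.1 hM).1
      exact mem_powerset.2 (h.sub 0 _ (this.1.1 0))
    · intro M hM j
      exact mem_image.2 ⟨M, mem_filter.2 ⟨hM, rfl⟩, rfl⟩
    · intro M hM j
      refine (stage h hX j (M j.castSucc) (r - (j + 1)) _ D (Fin.last r) ?_ ?_ ?_ ?_ ?_).trans
        (Nat.pow_le_pow_right (Nat.one_le_pow _ _ (Nat.succ_pos _)) (Nat.sub_le _ _))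
      · have := j.2
        rw [Fin.val_last]
        omega
      · exact (filter_subset _ _).trans (filter_subset _ _)
      · intro M' hM'
        exact (mem_filter.1 hM').2
      · intro M' hM'
        have h1 := mem_filter.1 (mem_filter.1 hM').1
        rw [← h1.2]
        exact (mem_GChains.1 h1.1).1.2 (Fin.le_last _)
      · intro M' hM'
        have h1 := mem_filter.1 (mem_filter.1 hM').1
        rw [← h1.2]
  have hcover : GChains F0 F L K ⊆ K.powerset.biUnion 𝒢 := by
    intro M hM
    rw [mem_biUnion]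
    exact ⟨M (Fin.last r), mem_powerset.2 (h.sub _ _ ((mem_GChains.1 hM).1.1 _)),
      mem_filter.2 ⟨hM, rfl⟩⟩
  refine (card_le_card hcover).trans (card_biUnion_le.trans ?_)
  refine (Finset.sum_le_card_nsmul _ _ _ (fun D _ => hD D)).trans (le_of_eq ?_)
  rw [card_powerset, smul_eq_mul, ← mul_assoc, ← mul_pow]
  norm_num

/-- **Theorem D'**: families without universal structure of height three have few chains. -/
theorem card_chains_le_XI' (m : ℕ) (V : Finset α) (F0 : Fin (r + 1) → Finset (Finset α))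
    (hV : ∀ i, ∀ u ∈ F0 i, u ⊆ V) (hX : ¬ XI F0 m) :
    (Chains F0).card ≤ 6 ^ V.card * (V.card + 1) ^ (m * (r * r)) := by
  refine card_chains_le_of_base F0 V hV 4 _ ?_
  intro K F L hK h
  refine (base_X F0 m hX K F L h).trans (Nat.mul_le_mul_left _ ?_)
  rw [← pow_mul]
  exact Nat.pow_le_pow_left (Nat.add_le_add_right (card_le_card hK) 1) _

end Pool.Agent.H23.PRam
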